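import Mathlib
import Pool.Agent.Lib.MP_fd6ff4_co.R43.Statement

/-!
# The faces of the standard simplex are balls
-/

set_option autoImplicit false

open Finset

namespace Pool.Agent.Lib.MP_fd6ff4_co.R43

variable {d : ℕ}

/-- the face of the standard simplex -/
def facep (U : Finset (Fin d)) : Set (Fin d → ℝ) :=
  {x | 0 ≤ x ∧ ∑ i, x i = 1 ∧ ∀ i, x i ≠ 0 → i ∈ U}

/-- the corner simplex -/
def corner (m : ℕ) : Set (EuclideanSpace ℝ (Fin m)) := {y | (∀ k, 0 ≤ y k) ∧ ∑ k, y k ≤ 1}

theorem convex_corner (m : ℕ) : Convex ℝ (corner m) := by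
  rintro y ⟨hy, hy'⟩ z ⟨hz, hz'⟩ a b ha hb hab
  refine ⟨fun k => ?_, ?_⟩
  · have h1 := mul_nonneg ha (hy k)
    have h2 := mul_nonneg hb (hz k)
    simpa using add_nonneg h1 h2
  · have h1 : ∑ k, (a • y + b • z) k = a * ∑ k, y k + b * ∑ k, z k := by
      simp [Finset.sum_add_distrib, Finset.mul_sum]
    rw [h1]
    nlinarith

theorem isClosed_corner (m : ℕ) : IsClosed (corner m) := by
  have h1 : corner m = (⋂ k, {y : EuclideanSpace ℝ (Fin m) | 0 ≤ y k}) ∩ {y | ∑ k, y k ≤ 1} := by
    ext y
    simp [corner]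
  rw [h1]
  refine IsClosed.inter (isClosed_iInter fun k => ?_) ?_
  · exact isClosed_le continuous_const (by fun_prop)
  · exact isClosed_le (by fun_prop) continuous_const

theorem isBounded_corner (m : ℕ) : Bornology.IsBounded (corner m) := by
  refine (Metric.isBounded_closedBall (x := (0 : EuclideanSpace ℝ (Fin m))) (r := 1)).subset ?_
  rintro y ⟨hy, hy'⟩
  rw [mem_closedBall_zero_iff]
  have h1 : ‖y‖ ^ 2 ≤ 1 := by
    rw [EuclideanSpace.norm_sq_eq]
    refine le_trans (Finset.sum_le_sum fun k _ => ?_) hy'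
    have h2 : y k ≤ 1 :=
      (Finset.single_le_sum (f := fun k => y k) (fun k _ => hy k) (mem_univ k)).trans hy'
    rw [Real.norm_eq_abs, sq_abs]
    have := hy k
    nlinarith
  nlinarith [norm_nonneg y]

theorem interior_corner (m : ℕ) :
    interior (corner m) = {y | (∀ k, 0 < y k) ∧ ∑ k, y k < 1} := by
  have hpush : ∀ y ∈ interior (corner m), ∀ v : EuclideanSpace ℝ (Fin m),
      ∃ ε : ℝ, 0 < ε ∧ y + ε • v ∈ corner m := by
    intro y hy v
    have hc : Continuous fun t : ℝ => y + t • v := by fun_prop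
    have h0 : (fun t : ℝ => y + t • v) ⁻¹' interior (corner m) ∈ nhds (0 : ℝ) := by
      refine (isOpen_interior.preimage hc).mem_nhds ?_
      simpa using hy
    obtain ⟨δ, hδ, hball⟩ := Metric.mem_nhds_iff.1 h0
    refine ⟨δ / 2, by positivity, interior_subset (hball ?_)⟩
    rw [Metric.mem_ball, Real.dist_eq, sub_zero, abs_of_pos (by positivity)]
    linarith
  apply Set.Subset.antisymm
  · intro y hy
    refine ⟨fun k => ?_, ?_⟩
    · obtain ⟨ε, hε, h1⟩ := hpush y hy (EuclideanSpace.single k (-1))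
      have h2 := h1.1 k
      simp at h2
      linarith
    · obtain ⟨ε, hε, h1⟩ := hpush y hy y
      have h2 := h1.2
      have h3 : ∑ k, (y + ε • y) k = (1 + ε) * ∑ k, y k := by
        simp only [PiLp.add_apply, PiLp.smul_apply, smul_eq_mul, Finset.sum_add_distrib,
          ← Finset.mul_sum]
        ring
      rw [h3] at h2
      by_contra hcon
      rw [not_lt] at hcon
      nlinarith
  · refine interior_maximal ?_ ?_
    · rintro y ⟨h1, h2⟩
      exact ⟨fun k => (h1 k).le, h2.le⟩
    · have h1 : {y : EuclideanSpace ℝ (Fin m) | (∀ k, 0 < y k) ∧ ∑ k, y k < 1} =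
          (⋂ k, {y : EuclideanSpace ℝ (Fin m) | 0 < y k}) ∩ {y | ∑ k, y k < 1} := by
        ext y
        simp
      rw [h1]
      refine IsOpen.inter (isOpen_iInter_of_finite fun k => ?_) ?_
      · exact isOpen_lt continuous_const (by fun_prop)
      · exact isOpen_lt (by fun_prop) continuous_const

theorem interior_corner_nonempty (m : ℕ) : (interior (corner m)).Nonempty := by
  rw [interior_corner]
  have hm : (0 : ℝ) < (m : ℝ) + 1 := by positivity
  refine ⟨WithLp.toLp 2 fun _ => 1 / ((m : ℝ) + 1), fun k => ?_, ?_⟩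
  · change (0 : ℝ) < 1 / ((m : ℝ) + 1)
    positivity
  · simp only [Finset.sum_const, Finset.card_univ, Fintype.card_fin, nsmul_eq_mul]
    rw [mul_one_div, div_lt_one hm]
    linarith

/-- the face `U` of the standard simplex is homeomorphic to the closed ball of dimension `#U - 1`,
the points with support `U` correspond to the open ball: remove one coordinate of `U`, the image is
a convex body; `exists_homeomorph_image_interior_closure_frontier_eq_unitBall` -/
theorem exists_ball (U : Finset (Fin d)) (hU : U.Nonempty) :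
    ∃ h : facep U ≃ₜ Metric.closedBall (0 : EuclideanSpace ℝ (Fin (#U - 1))) 1,
      ∀ x, ‖(h x : EuclideanSpace ℝ (Fin (#U - 1)))‖ < 1 ↔ ∀ i ∈ U, (x : Fin d → ℝ) i ≠ 0 := by
  classical
  obtain ⟨i0, hi0⟩ := hU
  have hcard : #(U.erase i0) = #U - 1 := Finset.card_erase_of_mem hi0
  let e : Fin (#U - 1) ≃ U.erase i0 := ((U.erase i0).equivFinOfCardEq hcard).symm
  let F : (Fin d → ℝ) → EuclideanSpace ℝ (Fin (#U - 1)) := fun x => WithLp.toLp 2 fun k => x (e k)
  let G : EuclideanSpace ℝ (Fin (#U - 1)) → Fin d → ℝ := fun y i =>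
    if h : i ∈ U.erase i0 then y (e.symm ⟨i, h⟩) else if i = i0 then 1 - ∑ k, y k else 0
  have hF : ∀ x k, F x k = x (e k) := fun x k => rfl
  have hFc : Continuous F := by
    refine (PiLp.continuous_toLp 2 _).comp ?_
    fun_prop
  have hGc : Continuous G := by
    refine continuous_pi fun i => ?_
    simp only [G]
    by_cases h : i ∈ U.erase i0
    · simp only [h, dif_pos]
      fun_prop
    · simp only [h, dif_neg, not_false_eq_true]
      by_cases h' : i = i0
      · simp only [h', if_true]
        fun_prop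
      · simp only [h', if_false]
        exact continuous_const
  have hsum : ∀ g : Fin d → ℝ, ∑ k, g (e k) = ∑ i ∈ U.erase i0, g i := by
    intro g
    rw [← Finset.sum_coe_sort (U.erase i0) g]
    exact Equiv.sum_comp e fun i => g i
  have hface : ∀ x : Fin d → ℝ, (∀ i, x i ≠ 0 → i ∈ U) → ∑ i, x i = x i0 + ∑ k, x (e k) := by
    intro x hx
    rw [hsum, Finset.add_sum_erase U x hi0]
    symm
    refine Finset.sum_subset (Finset.subset_univ U) fun i _ hi => ?_
    by_contra hne
    exact hi (hx i hne)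
  have hG1 : ∀ y (i : Fin d) (h : i ∈ U.erase i0), G y i = y (e.symm ⟨i, h⟩) := fun y i h =>
    dif_pos h
  have hG2 : ∀ y, G y i0 = 1 - ∑ k, y k := by
    intro y
    simp only [G]
    rw [dif_neg (Finset.notMem_erase i0 U)]
    simp
  have hG3 : ∀ y (i : Fin d), i ∉ U → G y i = 0 := by
    intro y i hi
    simp only [G]
    have h' : i ≠ i0 := by
      rintro rfl
      exact hi hi0
    rw [dif_neg fun h => hi (Finset.mem_of_mem_erase h), if_neg h']
  have hG4 : ∀ y k, G y (e k) = y k := by
    intro y k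
    rw [hG1 y (e k) (e k).2]
    simp
  have hFG : ∀ y, F (G y) = y := by
    intro y
    ext k
    rw [hF, hG4]
  have hFmem : ∀ x ∈ facep U, F x ∈ corner (#U - 1) := by
    rintro x ⟨h1, h2, h3⟩
    refine ⟨fun k => h1 _, ?_⟩
    have h4 := hface x h3
    have h5 := h1 i0
    simp only [hF]
    rw [h2] at h4
    simp only [Pi.zero_apply] at h5
    linarith
  have hGmem : ∀ y ∈ corner (#U - 1), G y ∈ facep U := by
    rintro y ⟨h1, h2⟩
    have h3 : ∀ i, G y i ≠ 0 → i ∈ U := by
      intro i hi
      by_contra hcon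
      exact hi (hG3 y i hcon)
    refine ⟨fun i => ?_, ?_, h3⟩
    · rw [Pi.zero_apply]
      by_cases h : i ∈ U.erase i0
      · rw [hG1 y i h]
        exact h1 _
      · by_cases h' : i = i0
        · rw [h', hG2]
          linarith
        · rw [hG3 y i fun h'' => h (Finset.mem_erase.2 ⟨h', h''⟩)]
    · rw [hface _ h3, hG2]
      simp only [hG4]
      ring
  have hGF : ∀ x ∈ facep U, G (F x) = x := by
    rintro x ⟨h1, h2, h3⟩
    funext i
    by_cases h : i ∈ U.erase i0
    · rw [hG1 _ i h, hF]
      simp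
    · by_cases h' : i = i0
      · rw [h', hG2]
        have h4 := hface x h3
        simp only [hF]
        linarith
      · have hi : i ∉ U := fun h'' => h (Finset.mem_erase.2 ⟨h', h''⟩)
        rw [hG3 _ i hi]
        by_contra hne
        exact hi (h3 i (Ne.symm hne))
  let A : facep U ≃ₜ corner (#U - 1) :=
    { toFun := fun x => ⟨F x, hFmem x x.2⟩
      invFun := fun y => ⟨G y, hGmem y y.2⟩
      left_inv := fun x => Subtype.ext (hGF x x.2)
      right_inv := fun y => Subtype.ext (hFG y)
      continuous_toFun := (hFc.comp continuous_subtype_val).subtype_mk _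
      continuous_invFun := (hGc.comp continuous_subtype_val).subtype_mk _ }
  obtain ⟨H, H1, H2, _⟩ := exists_homeomorph_image_interior_closure_frontier_eq_unitBall
    (convex_corner (#U - 1)) (interior_corner_nonempty _) (isBounded_corner _)
  rw [(isClosed_corner _).closure_eq] at H2
  refine ⟨(A.trans (H.image (corner (#U - 1)))).trans (Homeomorph.setCongr H2), fun x => ?_⟩
  have hx : (((A.trans (H.image (corner (#U - 1)))).trans (Homeomorph.setCongr H2)) x :
      EuclideanSpace ℝ (Fin (#U - 1))) = H (F x) := rfl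
  rw [hx, ← mem_ball_zero_iff, ← H1, H.injective.mem_set_image, interior_corner]
  obtain ⟨h1, h2, h3⟩ := x.2
  have h4 := hface x h3
  rw [h2] at h4
  have h5 : ∀ i, 0 ≤ (x : Fin d → ℝ) i := fun i => h1 i
  constructor
  · rintro ⟨h6, h7⟩ i hi
    by_cases h : i = i0
    · rw [h]
      simp only [hF] at h7
      intro h8
      rw [h8] at h4
      linarith
    · have h8 := h6 (e.symm ⟨i, Finset.mem_erase.2 ⟨h, hi⟩⟩)
      rw [hF] at h8
      simp only [Equiv.apply_symm_apply] at h8
      exact h8.ne'
  · intro h6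
    refine ⟨fun k => ?_, ?_⟩
    · rw [hF]
      exact lt_of_le_of_ne (h5 _) (Ne.symm (h6 _ (Finset.mem_of_mem_erase (e k).2)))
    · simp only [hF]
      have h7 : 0 < (x : Fin d → ℝ) i0 := lt_of_le_of_ne (h5 _) (Ne.symm (h6 _ hi0))
      linarith

end Pool.Agent.Lib.MP_fd6ff4_co.R43
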