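import Mathlib

/-!
# Cones over geometric realizations
-/

set_option autoImplicit false

open Finset

namespace Pool.Agent.Lib.MP_fd6ff4_co.R43

variable {V : Type} [Fintype V]

/-- the closed cone of a set of vertices -/
def cellc (G : Finset V) : Set (V → ℝ) := {z | (∀ v, 0 ≤ z v) ∧ ∀ v, z v ≠ 0 → v ∈ G}

/-- the cone over the geometric realization -/
def Cone (Γ : Finset (Finset V)) : Set (V → ℝ) := {z | ∃ G ∈ Γ, z ∈ cellc G}

theorem isClosed_cellc (G : Finset V) : IsClosed (cellc G) := by
  have : cellc G = (⋂ v, {z : V → ℝ | 0 ≤ z v}) ∩ ⋂ v, {z : V → ℝ | v ∉ G → z v = 0} := by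
    ext z
    simp only [cellc, Set.mem_setOf_eq, Set.mem_inter_iff, Set.mem_iInter]
    refine and_congr Iff.rfl (forall_congr' fun v => ?_)
    exact not_imp_comm
  rw [this]
  refine (isClosed_iInter fun v => isClosed_le continuous_const (continuous_apply v)).inter
    (isClosed_iInter fun v => ?_)
  by_cases hv : v ∈ G
  · simp [hv]
  · simp only [hv, not_false_eq_true, true_imp_iff]
    exact isClosed_eq (continuous_apply v) continuous_const

end Pool.Agent.Lib.MP_fd6ff4_co.R43
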