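import Mathlib
import Pool.Agent.Lib.MP_fd6ff4_co.R43.T2.Real
import Pool.Agent.Lib.MP_fd6ff4_co.R43.T2.Ball

/-!
# From a homogeneous bijection of cones to a topological triangulation
-/

set_option autoImplicit false

open Finset

namespace Pool.Agent.Lib.MP_fd6ff4_co.R43

variable {d : ℕ} {V : Type} [Fintype V] [DecidableEq V]

theorem asm_compact {n : ℕ} {K : Finset (Finset (Fin n))}
    (hK : ∀ F ∈ K, ∀ G, G ⊆ F → G ∈ K) : IsCompact (geom K) := by
  have h : geom K = (⋃ G ∈ K, cellc G) ∩ {x | ∑ j, x j = 1} := by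
    ext x
    simp only [geom, cellc, Set.mem_setOf_eq, Set.mem_inter_iff, Set.mem_iUnion, exists_prop]
    constructor
    · rintro ⟨h1, h2, h3⟩
      exact ⟨⟨spt x, h3, h1, fun v hv => by simp [spt, hv]⟩, h2⟩
    · rintro ⟨⟨G, hG, h1, h3⟩, h2⟩
      exact ⟨h1, h2, hK G hG _ fun v hv => h3 v (by simpa [spt] using hv)⟩
  refine Metric.isCompact_of_isClosed_isBounded ?_ ?_
  · rw [h]
    exact (K.finite_toSet.isClosed_biUnion fun G _ => isClosed_cellc G).inter
      (isClosed_eq (continuous_finsetSum _ fun j _ => continuous_apply j) continuous_const)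
  · refine (Metric.isBounded_closedBall (x := (0 : Fin n → ℝ)) (r := 1)).subset fun x hx => ?_
    rw [Metric.mem_closedBall, dist_zero_right, pi_norm_le_iff_of_nonneg zero_le_one]
    intro j
    rw [Real.norm_of_nonneg (hx.1 j), ← hx.2.1]
    exact single_le_sum (fun i _ => hx.1 i) (mem_univ j)

theorem asm_cone (Γ : Finset (Finset V)) {H : (V → ℝ) → (Fin d → ℝ)}
    (hcont : ∀ G ∈ Γ, ContinuousOn H (cellc G)) : ContinuousOn H (Cone Γ) := by
  have h : Cone Γ = ⋃ G : Γ, cellc (G : Finset V) := by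
    ext z
    simp [Cone]
  rw [h]
  exact (locallyFinite_of_finite _).continuousOn_iUnion (fun G => isClosed_cellc _)
    fun G => hcont G G.2

theorem asm_smul {Γ : Finset (Finset V)} {z : V → ℝ} (hz : z ∈ Cone Γ) {c : ℝ} (hc : 0 ≤ c) :
    c • z ∈ Cone Γ := by
  obtain ⟨G, hG, h1, h2⟩ := hz
  refine ⟨G, hG, fun v => mul_nonneg hc (h1 v), fun v hv => h2 v fun h0 => hv ?_⟩
  simp [h0]

theorem asm_mem {n : ℕ} (Γ : Finset (Finset V)) (e : V ≃ Fin n) (F : Finset (Fin n)) :
    F ∈ Γ.map e.finsetCongr.toEmbedding ↔ F.map e.symm.toEmbedding ∈ Γ := by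
  rw [Finset.mem_map_equiv]
  rfl

/-- `z ↦ H z / |H z|` is a continuous bijection of the compact geometric realization of `Γ_U` onto
the face `U` of the standard simplex, for every `U` -/
theorem topTri_of_cone (Γ : Finset (Finset V)) (σ : V → Finset (Fin d)) (hemp : ∅ ∈ Γ)
    (hdown : ∀ F ∈ Γ, ∀ G, G ⊆ F → G ∈ Γ) (hvert : ∀ v, {v} ∈ Γ) (hne : ∀ v, (σ v).Nonempty)
    (H : (V → ℝ) → (Fin d → ℝ)) (hcont : ∀ G ∈ Γ, ContinuousOn H (cellc G))
    (hsmul : ∀ z ∈ Cone Γ, ∀ c : ℝ, 0 ≤ c → H (c • z) = c • H z)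
    (hpos : ∀ z ∈ Cone Γ, 0 ≤ H z) (hinj : Set.InjOn H (Cone Γ))
    (hsurj : ∀ x, 0 ≤ x → ∃ z ∈ Cone Γ, H z = x)
    (hcar : ∀ z ∈ Cone Γ, ∀ i, H z i ≠ 0 ↔ ∃ v, z v ≠ 0 ∧ i ∈ σ v) {n : ℕ} (e : V ≃ Fin n) :
    TopTri (Γ.map e.finsetCongr.toEmbedding) (fun j => σ (e.symm j)) := by
  have hdown' : ∀ F ∈ Γ.map e.finsetCongr.toEmbedding, ∀ G, G ⊆ F →
      G ∈ Γ.map e.finsetCongr.toEmbedding := by
    intro F hF G hG
    rw [asm_mem] at hF ⊢
    exact hdown _ hF _ (Finset.map_subset_map.mpr hG)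
  refine ⟨?_, hdown', ?_, fun j => hne _, ?_⟩
  · rw [asm_mem]
    simpa using hemp
  · intro j
    rw [asm_mem]
    simpa using hvert (e.symm j)
  intro U hU
  set K := sub (fun j => σ (e.symm j)) (Γ.map e.finsetCongr.toEmbedding) U with hKdef
  have hKmem : ∀ F, F ∈ K ↔ F.map e.symm.toEmbedding ∈ Γ ∧
      car (fun j => σ (e.symm j)) F ⊆ U := by
    intro F
    rw [hKdef, sub, mem_filter, asm_mem]
  have hK : ∀ F ∈ K, ∀ G, G ⊆ F → G ∈ K := by
    intro F hF G hG
    rw [hKmem] at hF ⊢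
    exact ⟨hdown _ hF.1 _ (Finset.map_subset_map.mpr hG),
      (biUnion_subset_biUnion_of_subset_left _ hG).trans hF.2⟩
  -- the point of the cone
  have hz : ∀ x : geom K, (fun v => (x : Fin n → ℝ) (e v)) ∈ Cone Γ := by
    intro x
    refine ⟨_, ((hKmem _).mp x.2.2.2).1, fun v => x.2.1 _, fun v hv => ?_⟩
    rw [Finset.mem_map_equiv]
    simpa [spt] using hv
  set z : geom K → V → ℝ := fun x v => (x : Fin n → ℝ) (e v) with hzdef
  have hzc : Continuous z := by
    refine continuous_pi fun v => ?_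
    exact (continuous_apply (e v)).comp continuous_subtype_val
  have hHc : Continuous fun x : geom K => H (z x) :=
    (asm_cone Γ hcont).comp_continuous hzc hz
  have hcar' : ∀ (x : geom K) (i : Fin d), H (z x) i ≠ 0 ↔
      i ∈ car (fun j => σ (e.symm j)) (spt (x : Fin n → ℝ)) := by
    intro x i
    rw [hcar _ (hz x) i, car, mem_biUnion]
    constructor
    · rintro ⟨v, hv, hi⟩
      exact ⟨e v, by simpa [spt, hzdef] using hv, by simpa using hi⟩
    · rintro ⟨j, hj, hi⟩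
      exact ⟨e.symm j, by simpa [spt, hzdef] using hj, hi⟩
  have hsum : ∀ x : geom K, 0 < ∑ i, H (z x) i := by
    intro x
    have h1 : ∃ j, (x : Fin n → ℝ) j ≠ 0 := by
      by_contra hcon
      push Not at hcon
      have := x.2.2.1
      simp [hcon] at this
    obtain ⟨j, hj⟩ := h1
    obtain ⟨i, hi⟩ := hne (e.symm j)
    refine sum_pos' (fun i _ => hpos _ (hz x) i) ⟨i, mem_univ _, ?_⟩
    refine lt_of_le_of_ne (hpos _ (hz x) i) (Ne.symm ?_)
    exact (hcar _ (hz x) i).mpr ⟨e.symm j, by simpa [hzdef] using hj, hi⟩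
  have hmem : ∀ x : geom K, (∑ i, H (z x) i)⁻¹ • H (z x) ∈ facep U := by
    intro x
    refine ⟨fun i => ?_, ?_, fun i hi => ?_⟩
    · exact mul_nonneg (inv_nonneg.mpr (hsum x).le) (hpos _ (hz x) i)
    · simp only [Pi.smul_apply, smul_eq_mul]
      rw [← mul_sum, inv_mul_cancel₀ (hsum x).ne']
    · have h1 : H (z x) i ≠ 0 := fun h0 => hi (by simp [h0])
      exact ((hKmem _).mp x.2.2.2).2 ((hcar' x i).mp h1)
  let T : geom K → facep U := fun x => ⟨(∑ i, H (z x) i)⁻¹ • H (z x), hmem x⟩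
  have hTc : Continuous T := by
    refine Continuous.subtype_mk ?_ _
    refine Continuous.smul (Continuous.inv₀ ?_ fun x => (hsum x).ne') hHc
    exact continuous_finsetSum _ fun i _ => (continuous_apply i).comp hHc
  have hTinj : Function.Injective T := by
    intro x x' hxx
    have h1 : (∑ i, H (z x) i)⁻¹ • H (z x) = (∑ i, H (z x') i)⁻¹ • H (z x') :=
      congrArg Subtype.val hxx
    set s := ∑ i, H (z x) i with hs
    set s' := ∑ i, H (z x') i with hs'
    have hs0 : 0 < s := hsum x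
    have hs0' : 0 < s' := hsum x'
    have h2 : H (s⁻¹ • z x) = H (s'⁻¹ • z x') := by
      rw [hsmul _ (hz x) _ (inv_nonneg.mpr hs0.le), hsmul _ (hz x') _ (inv_nonneg.mpr hs0'.le), h1]
    have h3 := hinj (asm_smul (hz x) (inv_nonneg.mpr hs0.le))
      (asm_smul (hz x') (inv_nonneg.mpr hs0'.le)) h2
    have h4 : ∀ j, s⁻¹ * (x : Fin n → ℝ) j = s'⁻¹ * (x' : Fin n → ℝ) j := by
      intro j
      have := congrFun h3 (e.symm j)
      simpa [hzdef] using this
    have h5 : s⁻¹ = s'⁻¹ := by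
      have h6 : ∑ j, s⁻¹ * (x : Fin n → ℝ) j = ∑ j, s'⁻¹ * (x' : Fin n → ℝ) j :=
        sum_congr rfl fun j _ => h4 j
      rw [← mul_sum, ← mul_sum, x.2.2.1, x'.2.2.1, mul_one, mul_one] at h6
      exact h6
    apply Subtype.ext
    funext j
    have h6 := h4 j
    rw [← h5] at h6
    exact mul_left_cancel₀ (inv_ne_zero hs0.ne') h6
  have hTsurj : Function.Surjective T := by
    rintro ⟨p, hp0, hp1, hpU⟩
    obtain ⟨w, hw, hwp⟩ := hsurj p hp0
    obtain ⟨G, hG, hw0, hwG⟩ := hw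
    have hwC : w ∈ Cone Γ := ⟨G, hG, hw0, hwG⟩
    set s := ∑ v, w v with hs
    have hs0 : 0 < s := by
      refine lt_of_le_of_ne (sum_nonneg fun v _ => hw0 v) fun h0 => ?_
      have h1 : w = 0 := by
        funext v
        exact (sum_eq_zero_iff_of_nonneg fun v _ => hw0 v).mp (hs.symm.trans h0.symm) v (mem_univ v)
      have h2 : H w = 0 := by
        have := hsmul w hwC 0 le_rfl
        rw [zero_smul, zero_smul] at this
        rwa [h1]
      rw [hwp] at h2
      rw [h2] at hp1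
      simp at hp1
    have hx : (fun j => s⁻¹ * w (e.symm j)) ∈ geom K := by
      refine ⟨fun j => mul_nonneg (inv_nonneg.mpr hs0.le) (hw0 _), ?_, ?_⟩
      · rw [← mul_sum, Equiv.sum_comp e.symm w, ← hs, inv_mul_cancel₀ hs0.ne']
      · rw [hKmem]
        have hsp : ∀ j, j ∈ spt (fun j => s⁻¹ * w (e.symm j)) ↔ w (e.symm j) ≠ 0 := by
          intro j
          simp [spt, hs0.ne']
        constructor
        · refine hdown G hG _ fun v hv => ?_
          rw [Finset.mem_map_equiv] at hv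
          have := (hsp _).mp hv
          simp only [Equiv.symm_symm, Equiv.symm_apply_apply] at this
          exact hwG v this
        · intro i hi
          rw [car, mem_biUnion] at hi
          obtain ⟨j, hj, hij⟩ := hi
          have h1 := (hcar w hwC i).mpr ⟨e.symm j, (hsp j).mp hj, hij⟩
          rw [hwp] at h1
          exact hpU i h1
    refine ⟨⟨_, hx⟩, ?_⟩
    apply Subtype.ext
    have hzx : z ⟨_, hx⟩ = s⁻¹ • w := by
      funext v
      simp [hzdef]
    have hHx : H (z ⟨_, hx⟩) = s⁻¹ • p := by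
      rw [hzx, hsmul w hwC _ (inv_nonneg.mpr hs0.le), hwp]
    change (∑ i, H (z ⟨_, hx⟩) i)⁻¹ • H (z ⟨_, hx⟩) = p
    rw [hHx]
    have h1 : ∑ i, (s⁻¹ • p) i = s⁻¹ := by
      simp only [Pi.smul_apply, smul_eq_mul]
      rw [← mul_sum, hp1, mul_one]
    rw [h1, inv_inv, smul_smul, mul_inv_cancel₀ hs0.ne', one_smul]
  haveI : CompactSpace (geom K) := isCompact_iff_compactSpace.mp (asm_compact hK)
  obtain ⟨h, hh⟩ := exists_ball U hU
  let E : geom K ≃ facep U := Equiv.ofBijective T ⟨hTinj, hTsurj⟩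
  have hEc : Continuous E := hTc
  refine ⟨hEc.homeoOfEquivCompactToT2.trans h, fun x => ?_⟩
  have h1 : (hEc.homeoOfEquivCompactToT2.trans h) x = h (T x) := rfl
  rw [h1, hh]
  constructor
  · intro h2
    refine subset_antisymm ((hKmem _).mp x.2.2.2).2 fun i hi => ?_
    rw [← hcar' x i]
    intro h0
    exact h2 i hi (by simp [T, h0])
  · intro h2 i hi
    rw [← h2, ← hcar' x i] at hi
    exact mul_ne_zero (inv_ne_zero (hsum x).ne') hi

end Pool.Agent.Lib.MP_fd6ff4_co.R43
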