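import Mathlib
import Pool.Agent.Lib.MP_fd6ff4_co.R43.Sys

/-!
# T2: the objects

A point of `ℝ^7` is `mk y l` with the fibre part `yy x = y ∈ ℝ^3` and the base part `ll x = l ∈ ℝ^4`.
For a section system `Σ` and a small number `η` (`Small`) let
`u f x = η * tot l - ‖y - S f l‖`, `CC = {x ≥ 0 : u f x ≤ 0 for all f ∈ W}` and, for a set `α` of
coarse vertices, `LL α = {x ∈ CC : for every (i, a) ∈ α the coordinate l i is the largest one, and
u f x ≥ 0 for some f ∈ W with f i = a}`. `glue f w q` is the map `HH` of the paper proof: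
`(y_q + S f (l_q + col w) - S f l_q, l_q + col w)`.
-/

set_option autoImplicit false

open Finset

namespace Pool.Agent.Lib.MP_fd6ff4_co.R43

/-- the coarse vertices: the letter `a` of the colour `i` -/
abbrev CV : Type := Fin 4 × Fin 3

/-- the fibre part -/
def yy (x : Fin 7 → ℝ) : Fin 3 → ℝ := fun j => x ⟨j.1, by omega⟩

/-- the base part -/
def ll (x : Fin 7 → ℝ) : Fin 4 → ℝ := fun i => x (bas i)

/-- the point with given fibre and base parts -/
def mk (y : Fin 3 → ℝ) (l : Fin 4 → ℝ) : Fin 7 → ℝ :=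
  fun k => if h : k.1 < 3 then y ⟨k.1, h⟩ else l ⟨k.1 - 3, by omega⟩

@[simp] theorem yy_mk (y : Fin 3 → ℝ) (l : Fin 4 → ℝ) : yy (mk y l) = y := by
  funext j
  simp [yy, mk]

@[simp] theorem ll_mk (y : Fin 3 → ℝ) (l : Fin 4 → ℝ) : ll (mk y l) = l := by
  funext j
  simp [ll, mk, bas]

theorem mk_eta (x : Fin 7 → ℝ) : mk (yy x) (ll x) = x := by
  funext k
  by_cases h : k.1 < 3
  · simp [mk, h, yy]
  · simp only [mk, h, dif_neg, not_false_eq_true, ll, bas]
    congr 1
    ext
    simp
    omega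

/-- the colour masses of a function on the coarse vertices -/
def col (w : CV → ℝ) : Fin 4 → ℝ := fun i => ∑ a, w (i, a)

/-- the function on the coarse vertices with the masses `t` on the word `f` -/
def onw (f : Word) (t : Fin 4 → ℝ) : CV → ℝ := fun v => if f v.1 = v.2 then t v.1 else 0

/-- the support of `w` is contained in the word `f` -/
def InW (w : CV → ℝ) (f : Word) : Prop := ∀ v, w v ≠ 0 → f v.1 = v.2

theorem InW.eq_onw {w : CV → ℝ} {f : Word} (h : InW w f) : w = onw f (col w) := by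
  funext ⟨i, a⟩
  simp only [onw, col]
  by_cases hf : f i = a
  · rw [if_pos hf, Finset.sum_eq_single a]
    · intro b _ hb
      by_contra hc
      exact hb ((h (i, b) hc).symm.trans hf)
    · simp
  · rw [if_neg hf]
    by_contra hc
    exact hf (h (i, a) hc)

theorem col_onw (f : Word) (t : Fin 4 → ℝ) : col (onw f t) = t := by
  funext i
  simp only [onw, col]
  rw [Finset.sum_eq_single (f i)]
  · simp
  · intro b _ hb
    exact if_neg (Ne.symm hb)
  · simp

theorem inW_onw (f : Word) (t : Fin 4 → ℝ) : InW (onw f t) f := by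
  intro v hv
  by_contra hc
  exact hv (if_neg hc)

variable {W : Finset Word} (Sy : SecSys W) (η : ℝ)

/-- `η` is small -/
structure Small : Prop where
  pos : 0 < η
  trunc : 2 * η ≤ Sy.c * Sy.δ
  quarter : 8 * η < Sy.c
  box : η < Sy.κ

theorem exists_small : ∃ η, Small Sy η := by
  have h1 := Sy.c_pos
  have h2 := Sy.κ_pos
  have h3 := Sy.δ_pos
  have h4 : 0 < Sy.c * Sy.δ := mul_pos h1 h3
  refine ⟨min (Sy.c * Sy.δ / 2) (min (Sy.c / 16) (Sy.κ / 2)), ?_, ?_, ?_, ?_⟩
  · exact lt_min (by positivity) (lt_min (by positivity) (by positivity))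
  · have := min_le_left (Sy.c * Sy.δ / 2) (min (Sy.c / 16) (Sy.κ / 2))
    linarith
  · have := (min_le_right (Sy.c * Sy.δ / 2) (min (Sy.c / 16) (Sy.κ / 2))).trans (min_le_left _ _)
    linarith
  · have := (min_le_right (Sy.c * Sy.δ / 2) (min (Sy.c / 16) (Sy.κ / 2))).trans (min_le_right _ _)
    linarith

/-- `u f x ≥ 0`: the point is in the closed neighbourhood of the sheet of `f` -/
noncomputable def uu (f : Word) (x : Fin 7 → ℝ) : ℝ := η * tot (ll x) - ‖yy x - Sy.S f (ll x)‖

/-- the complement of the open neighbourhoods of the sheets -/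
def CC : Set (Fin 7 → ℝ) := {x | 0 ≤ x ∧ ∀ f ∈ W, uu Sy η f x ≤ 0}

/-- the points which can be joined to the coarse vertices in `α` -/
def LL (α : Finset CV) : Set (Fin 7 → ℝ) :=
  {x | x ∈ CC Sy η ∧ ∀ v ∈ α, (∀ j, ll x j ≤ ll x v.1) ∧ ∃ f ∈ W, f v.1 = v.2 ∧ 0 ≤ uu Sy η f x}

/-- the map `HH` for a given word -/
noncomputable def glue (f : Word) (w : CV → ℝ) (q : Fin 7 → ℝ) : Fin 7 → ℝ :=
  mk (yy q + (Sy.S f (ll q + col w) - Sy.S f (ll q))) (ll q + col w)

/-- the support of `w` as a finite set -/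
noncomputable def spw (w : CV → ℝ) : Finset CV := univ.filter fun v => w v ≠ 0

/-- the admissible triples `(f, w, q)` for `HH` -/
structure Adm (f : Word) (w : CV → ℝ) (q : Fin 7 → ℝ) : Prop where
  mem : f ∈ W
  nonneg : ∀ v, 0 ≤ w v
  inw : InW w f
  q_mem : q ∈ LL Sy η (spw w)
  q_eq : uu Sy η f q = 0

end Pool.Agent.Lib.MP_fd6ff4_co.R43
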