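import Mathlib
import Pool.Agent.Lib.MP_fd6ff4_co.R43.T2.Base

/-!
# T2: the triangulation

`Φ` is a fan for a set of functionals on `ℝ^7` which decides all the conditions (`Good`). The vertices
are the coarse vertices and the vertices of the fan which lie in `CC`; a face `G` consists of a
subset `α` of a word and a face `ρ` of the fan whose cone lies in `LL α`; as the functionals have
constant (weak) signs on the cone of `ρ` it is enough that the sum of the vertices of `ρ` lies in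
`LL α`.
-/

set_option autoImplicit false

open Finset

namespace Pool.Agent.Lib.MP_fd6ff4_co.R43

variable {W : Finset Word} (Sy : SecSys W) (η : ℝ)

/-- the functionals in `L` decide the signs of the differences of the base coordinates and of the
functions `uu`: the closed conditions pass from a cell to its closure; if `uu f y = 0` then one of
the six functionals `η * tot l ± (y j - S f l j)` vanishes on the closed cell of `y` (where `S f` is
linear) -/
structure Good (L : Set ((Fin 7 → ℝ) →ₗ[ℝ] ℝ)) : Prop where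
  fin : L.Finite
  diff : ∀ i j : Fin 4, ∀ x y : Fin 7 → ℝ, 0 ≤ x → 0 ≤ y → SgnLe L x y → ll y i ≤ ll y j →
    ll x i ≤ ll x j
  le : ∀ f ∈ W, ∀ x y : Fin 7 → ℝ, 0 ≤ x → 0 ≤ y → SgnLe L x y → uu Sy η f y ≤ 0 →
    uu Sy η f x ≤ 0
  ge : ∀ f ∈ W, ∀ x y : Fin 7 → ℝ, 0 ≤ x → 0 ≤ y → SgnLe L x y → 0 ≤ uu Sy η f y →
    0 ≤ uu Sy η f x
  piece : ∀ f ∈ W, ∀ y : Fin 7 → ℝ, 0 ≤ y → uu Sy η f y = 0 →
    ∃ (j : Fin 3) (B : (Fin 4 → ℝ) →ₗ[ℝ] ℝ), ∀ x : Fin 7 → ℝ, 0 ≤ x → SgnLe L x y →
      yy x j = B (ll x)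

variable {L : Set ((Fin 7 → ℝ) →ₗ[ℝ] ℝ)} (Φ : Fan L)

/-- the vertices of the fan in `CC` -/
abbrev FV : Type := {s : Fin Φ.n // Φ.P s ∈ CC Sy η}

noncomputable instance : Fintype (FV Sy η Φ) := Fintype.ofFinite _

/-- the vertices of the triangulation -/
abbrev VV : Type := CV ⊕ FV Sy η Φ

noncomputable instance : DecidableEq (VV Sy η Φ) := Classical.decEq _

/-- the coarse vertices of a face -/
noncomputable def alp (G : Finset (VV Sy η Φ)) : Finset CV := by
  classical exact univ.filter fun v => Sum.inl v ∈ G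

theorem mem_alp (G : Finset (VV Sy η Φ)) (v : CV) : v ∈ alp Sy η Φ G ↔ Sum.inl v ∈ G := by
  classical simp [alp]

/-- the fan vertices of a face -/
noncomputable def rho (G : Finset (VV Sy η Φ)) : Finset (Fin Φ.n) := by
  classical exact univ.filter fun s => ∃ h : Φ.P s ∈ CC Sy η, Sum.inr ⟨s, h⟩ ∈ G

theorem mem_rho (G : Finset (VV Sy η Φ)) (s : Fin Φ.n) :
    s ∈ rho Sy η Φ G ↔ ∃ h : Φ.P s ∈ CC Sy η, Sum.inr ⟨s, h⟩ ∈ G := by
  classical simp [rho]

/-- the faces of the triangulation -/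
structure IsFace (G : Finset (VV Sy η Φ)) : Prop where
  word : ∃ f ∈ W, ∀ v ∈ alp Sy η Φ G, f v.1 = v.2
  face : rho Sy η Φ G ∈ Φ.K
  mem : ∑ s ∈ rho Sy η Φ G, Φ.P s ∈ LL Sy η (alp Sy η Φ G)

/-- the complex -/
noncomputable def cplx : Finset (Finset (VV Sy η Φ)) := by
  classical exact univ.filter fun G => IsFace Sy η Φ G

theorem mem_cplx (G : Finset (VV Sy η Φ)) : G ∈ cplx Sy η Φ ↔ IsFace Sy η Φ G := by
  classical simp [cplx]

/-- the carriers -/
noncomputable def carr : VV Sy η Φ → Finset (Fin 7)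
  | Sum.inl v => insert (bas v.1) fib
  | Sum.inr s => univ.filter fun i => Φ.P s.1 i ≠ 0

/-- the part of a point on the coarse vertices -/
def wpt (z : VV Sy η Φ → ℝ) : CV → ℝ := fun v => z (Sum.inl v)

/-- the point of `ℝ^7` given by the part on the fan vertices -/
noncomputable def bpt (z : VV Sy η Φ → ℝ) : Fin 7 → ℝ := ∑ s, z (Sum.inr s) • Φ.P s.1

open Classical in
/-- the map `HH` -/
noncomputable def HH (z : VV Sy η Φ → ℝ) : Fin 7 → ℝ :=
  if wpt Sy η Φ z = 0 then bpt Sy η Φ z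
  else if h : ∃ f, Adm Sy η f (wpt Sy η Φ z) (bpt Sy η Φ z) then
    glue Sy h.choose (wpt Sy η Φ z) (bpt Sy η Φ z) else 0

end Pool.Agent.Lib.MP_fd6ff4_co.R43
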