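import Mathlib
import Pool.Agent.Lib.MP_fd6ff4_co.R43.T2.Cx
import Pool.Agent.Lib.MP_fd6ff4_co.R43.T2.Real

/-!
# T2: the fan and the closed sets
-/

set_option autoImplicit false

open Finset

namespace Pool.Agent.Lib.MP_fd6ff4_co.R43

variable {W : Finset Word} {Sy : SecSys W} {η : ℝ} {L : Set ((Fin 7 → ℝ) →ₗ[ℝ] ℝ)} {Φ : Fan L}

/-- the cone of a face of the fan lies in one cell: the vertices are in the closed cell of every
point with positive coefficients -/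
theorem sgnLe_face {F : Finset (Fin Φ.n)} (hF : F ∈ Φ.K) {c c' : Fin Φ.n → ℝ}
    (hc : ∀ s ∈ F, 0 < c s) (hc' : ∀ s ∈ F, 0 ≤ c' s) :
    SgnLe L (∑ s ∈ F, c' s • Φ.P s) (∑ s ∈ F, c s • Φ.P s) := by
  intro m hm
  simp only [map_sum, map_smul, smul_eq_mul]
  rcases Φ.compat F hF m hm with h | h
  · refine ⟨fun h1 => ?_, fun h1 => ?_⟩
    · obtain ⟨v, hv, hv1⟩ := Finset.exists_lt_of_sum_lt (f := fun _ => (0 : ℝ))
        (g := fun v => c' v * m (Φ.P v)) (s := F) (by simpa using h1)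
      have h2 : m (Φ.P v) ≠ 0 := by
        intro h0
        rw [h0, mul_zero] at hv1
        exact lt_irrefl _ hv1
      exact Finset.sum_pos' (fun w hw => mul_nonneg (hc w hw).le (h w hw))
        ⟨v, hv, mul_pos (hc v hv) (lt_of_le_of_ne (h v hv) h2.symm)⟩
    · exact absurd h1 (not_lt.2 (Finset.sum_nonneg fun v hv => mul_nonneg (hc' v hv) (h v hv)))
  · refine ⟨fun h1 => ?_, fun h1 => ?_⟩
    · exact absurd h1 (not_lt.2 (Finset.sum_nonpos fun v hv =>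
        mul_nonpos_of_nonneg_of_nonpos (hc' v hv) (h v hv)))
    · obtain ⟨v, hv, hv1⟩ := Finset.exists_lt_of_sum_lt (g := fun _ => (0 : ℝ))
        (f := fun v => c' v * m (Φ.P v)) (s := F) (by simpa using h1)
      have h2 : m (Φ.P v) ≠ 0 := by
        intro h0
        rw [h0, mul_zero] at hv1
        exact lt_irrefl _ hv1
      exact Finset.sum_neg' (fun w hw => mul_nonpos_of_nonneg_of_nonpos (hc w hw).le (h w hw))
        ⟨v, hv, mul_neg_of_pos_of_neg (hc v hv) (lt_of_le_of_ne (h v hv) h2)⟩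

/-- membership in `LL α` passes to the closed cell -/
theorem LL_of_sgnLe (hL : Good Sy η L) {α : Finset CV} {x y : Fin 7 → ℝ} (hx : 0 ≤ x)
    (h : SgnLe L x y) (hy : y ∈ LL Sy η α) : x ∈ LL Sy η α := by
  obtain ⟨⟨hy0, hy1⟩, hy2⟩ := hy
  refine ⟨⟨hx, fun f hf => hL.le f hf x y hx hy0 h (hy1 f hf)⟩, fun v hv => ?_⟩
  obtain ⟨h1, f, hf, hfv, h2⟩ := hy2 v hv
  exact ⟨fun j => hL.diff j v.1 x y hx hy0 h (h1 j), f, hf, hfv, hL.ge f hf x y hx hy0 h h2⟩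

theorem bpt_nonneg {z : VV Sy η Φ → ℝ} (hz : ∀ v, 0 ≤ z v) : 0 ≤ bpt Sy η Φ z := by
  unfold bpt
  refine Finset.sum_nonneg fun s _ => smul_nonneg (hz _) fun i => (Φ.P_mem s.1).1 i

open Classical in
/-- sums over the vertices of the fan in `CC` -/
theorem fcf_sum (c : Fin Φ.n → ℝ) (hc : ∀ s, c s ≠ 0 → Φ.P s ∈ CC Sy η) :
    ∑ s : FV Sy η Φ, c s.1 • Φ.P s.1 = ∑ s, c s • Φ.P s := by
  rw [← Finset.sum_subtype (univ.filter fun s => Φ.P s ∈ CC Sy η) (fun s => by simp)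
    (fun s => c s • Φ.P s)]
  refine Finset.sum_subset (filter_subset _ _) fun s _ hs => ?_
  have h1 : c s = 0 := by
    by_contra h0
    exact hs (by simpa using hc s h0)
  rw [h1, zero_smul]

open Classical in
/-- the coefficients on all the vertices of the fan -/
noncomputable def fcf (z : VV Sy η Φ → ℝ) (s : Fin Φ.n) : ℝ :=
  if h : Φ.P s ∈ CC Sy η then z (Sum.inr ⟨s, h⟩) else 0

theorem fcf_coe (z : VV Sy η Φ → ℝ) (s : FV Sy η Φ) : fcf z s.1 = z (Sum.inr s) := by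
  unfold fcf
  rw [dif_pos s.2]

theorem fcf_mem {z : VV Sy η Φ → ℝ} {s : Fin Φ.n} (h : fcf z s ≠ 0) : Φ.P s ∈ CC Sy η := by
  by_contra h0
  unfold fcf at h
  rw [dif_neg h0] at h
  exact h rfl

theorem fcf_nonneg {z : VV Sy η Φ → ℝ} (hz : ∀ v, 0 ≤ z v) (s : Fin Φ.n) : 0 ≤ fcf z s := by
  unfold fcf
  split_ifs
  · exact hz _
  · exact le_rfl

theorem bpt_fcf (z : VV Sy η Φ → ℝ) : bpt Sy η Φ z = ∑ s, fcf z s • Φ.P s := by
  rw [← fcf_sum (fcf z) fun s h => fcf_mem h]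
  unfold bpt
  exact Finset.sum_congr rfl fun s _ => by rw [fcf_coe]

theorem fcf_rho {G : Finset (VV Sy η Φ)} {z : VV Sy η Φ → ℝ} (hz : z ∈ cellc G) {s : Fin Φ.n}
    (h : fcf z s ≠ 0) : s ∈ rho Sy η Φ G := by
  have h1 := fcf_mem h
  rw [mem_rho]
  refine ⟨h1, hz.2 _ ?_⟩
  have h2 := fcf_coe z ⟨s, h1⟩
  rw [← h2]
  exact h

/-- `bpt z` as a sum over the vertices of the fan -/
theorem bpt_eq (z : VV Sy η Φ → ℝ) : bpt Sy η Φ z = ∑ s, (by
    classical exact if h : Φ.P s ∈ CC Sy η then z (Sum.inr ⟨s, h⟩) else 0 : ℝ) • Φ.P s := by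
  rw [bpt_fcf]
  exact Finset.sum_congr rfl fun s _ => rfl

/-- for a point of the closed cone of the face `G` the point `bpt z` lies in `LL (alp G)` -/
theorem bpt_mem_LL (hL : Good Sy η L) {G : Finset (VV Sy η Φ)} (hG : G ∈ cplx Sy η Φ)
    {z : VV Sy η Φ → ℝ} (hz : z ∈ cellc G) : bpt Sy η Φ z ∈ LL Sy η (alp Sy η Φ G) := by
  rw [mem_cplx] at hG
  have e : bpt Sy η Φ z = ∑ s ∈ rho Sy η Φ G, fcf z s • Φ.P s := by
    rw [bpt_fcf]
    refine (Finset.sum_subset (subset_univ _) fun s _ hs => ?_).symm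
    have h1 : fcf z s = 0 := by
      by_contra h0
      exact hs (fcf_rho hz h0)
    rw [h1, zero_smul]
  have h := sgnLe_face hG.face (c := fun _ => 1) (c' := fcf z) (fun _ _ => one_pos)
    (fun s _ => fcf_nonneg hz.1 s)
  rw [← e] at h
  simp only [one_smul] at h
  exact LL_of_sgnLe hL (bpt_nonneg hz.1) h hG.mem

/-- the points of `LL α` are the points `bpt z` with `z` supported on a face of the fan whose cone
is in `LL α` (`s` is the support) -/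
theorem exists_bpt (hL : Good Sy η L) {α : Finset CV} {q : Fin 7 → ℝ}
    (hq : q ∈ LL Sy η α) : ∃ (z : FV Sy η Φ → ℝ) (F : Finset (Fin Φ.n)), (∀ s, 0 ≤ z s) ∧
      F ∈ Φ.K ∧ (∀ s, z s ≠ 0 ↔ s.1 ∈ F) ∧ (∀ s ∈ F, Φ.P s ∈ CC Sy η) ∧
      ∑ s ∈ F, Φ.P s ∈ LL Sy η α ∧ ∑ s, z s • Φ.P s.1 = q := by
  have hq0 : ∀ i, 0 ≤ q i := hq.1.1
  have hsum := Φ.nu_sum q hq0
  have hF := Φ.nu_mem q hq0
  have hmem : ∀ s, s ∈ (univ.filter fun v => Φ.nu q v ≠ 0) ↔ Φ.nu q s ≠ 0 := fun s => by simp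
  have hpos : ∀ s ∈ (univ.filter fun v => Φ.nu q v ≠ 0), 0 < Φ.nu q s := fun s hs =>
    lt_of_le_of_ne (Φ.nu_nonneg q hq0 s) ((hmem s).1 hs).symm
  have e : ∑ s ∈ (univ.filter fun v => Φ.nu q v ≠ 0), Φ.nu q s • Φ.P s = q := by
    refine (Finset.sum_subset (subset_univ _) fun s _ hs => ?_).trans hsum
    have h1 : Φ.nu q s = 0 := by
      by_contra h0
      exact hs ((hmem s).2 h0)
    rw [h1, zero_smul]
  have hP0 : ∀ s, 0 ≤ Φ.P s := fun s i => (Φ.P_mem s).1 i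
  have hcc : ∀ s, Φ.nu q s ≠ 0 → Φ.P s ∈ CC Sy η := by
    intro s hs
    have h := sgnLe_face hF (c := Φ.nu q) (c' := Pi.single s 1) hpos (fun t _ => by
      rcases eq_or_ne t s with rfl | ht
      · rw [Pi.single_eq_same]
        exact zero_le_one
      · rw [Pi.single_eq_of_ne ht])
    have e2 : ∑ t ∈ (univ.filter fun v => Φ.nu q v ≠ 0), (Pi.single s (1 : ℝ) : Fin Φ.n → ℝ) t • Φ.P t =
        Φ.P s := by
      rw [Finset.sum_eq_single s (fun w _ hw => by rw [Pi.single_eq_of_ne hw, zero_smul])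
        (fun h => absurd ((hmem s).2 hs) h), Pi.single_eq_same, one_smul]
    rw [e, e2] at h
    exact (LL_of_sgnLe hL (hP0 s) h (α := ∅) ⟨hq.1, fun v hv => absurd hv (Finset.notMem_empty v)⟩).1
  refine ⟨fun s => Φ.nu q s.1, univ.filter fun v => Φ.nu q v ≠ 0, fun s => Φ.nu_nonneg q hq0 s.1, hF,
    fun s => (hmem s.1).symm, fun s hs => hcc s ((hmem s).1 hs), ?_, ?_⟩
  · have h := sgnLe_face hF (c := Φ.nu q) (c' := fun _ => 1) hpos (fun _ _ => zero_le_one)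
    rw [e] at h
    simp only [one_smul] at h
    exact LL_of_sgnLe hL (Finset.sum_nonneg fun s _ => hP0 s) h hq
  · rw [fcf_sum (Φ.nu q) hcc]
    exact hsum

/-- two points of the cone over the complex with the same `bpt` agree on the fan vertices -/
theorem bpt_inj {z z' : VV Sy η Φ → ℝ} (hz : z ∈ Cone (cplx Sy η Φ))
    (hz' : z' ∈ Cone (cplx Sy η Φ)) (e : bpt Sy η Φ z = bpt Sy η Φ z') (s : FV Sy η Φ) :
    z (Sum.inr s) = z' (Sum.inr s) := by
  have key : ∀ z : VV Sy η Φ → ℝ, z ∈ Cone (cplx Sy η Φ) → Φ.nu (bpt Sy η Φ z) = fcf z := by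
    rintro z ⟨G, hG, hz⟩
    rw [mem_cplx] at hG
    rw [bpt_fcf]
    refine Φ.nu_unique (fcf z) (fcf_nonneg hz.1) (Φ.down _ hG.face _ fun s hs => ?_)
    have h1 : fcf z s ≠ 0 := by simpa using hs
    exact fcf_rho hz h1
  rw [← fcf_coe z s, ← fcf_coe z' s, ← key z hz, ← key z' hz', e]

end Pool.Agent.Lib.MP_fd6ff4_co.R43
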