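import Mathlib
import Pool.Agent.Lib.MP_fd6ff4_co.R43.T1.PL

/-!
# T2: finitely many functionals decide the sign of a piecewise linear function
-/

set_option autoImplicit false

open Finset

namespace Pool.Agent.Lib.MP_fd6ff4_co.R43

/-- a piecewise linear function is decided by finitely many functionals: add the finitely many
linear pieces (one for every sign pattern) to the set -/
theorem IsPL.decide {ι : Type*} [Fintype ι] [DecidableEq ι] {φ : (ι → ℝ) → ℝ} (h : IsPL φ) :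
    ∃ L : Set ((ι → ℝ) →ₗ[ℝ] ℝ), L.Finite ∧ ∀ x y : ι → ℝ, 0 ≤ x → 0 ≤ y → SgnLe L x y →
      (φ y ≤ 0 → φ x ≤ 0) ∧ (0 ≤ φ y → 0 ≤ φ x) := by
  obtain ⟨L, hL, h⟩ := h
  obtain ⟨A, hA⟩ := h.pieces
  have : Finite L := hL.to_subtype
  refine ⟨L ∪ Set.range A, hL.union (Set.finite_range _), fun x y hx hy hxy => ?_⟩
  have hx' : SgnLe L x y := fun m hm => hxy m (Or.inl hm)
  have hm := hxy (A (psign L y)) (Or.inr ⟨_, rfl⟩)
  rw [hA y hy x hx hx', hA y hy y hy fun m _ => ⟨fun h => h, fun h => h⟩]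
  exact ⟨fun h0 => not_lt.1 fun h1 => absurd (hm.1 h1) (not_lt.2 h0),
    fun h0 => not_lt.1 fun h1 => absurd (hm.2 h1) (not_lt.2 h0)⟩

end Pool.Agent.Lib.MP_fd6ff4_co.R43
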