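import Mathlib
import Pool.Agent.Lib.MP_fd6ff4_co.R43.T2.Cx
import Pool.Agent.Lib.MP_fd6ff4_co.R43.T2.Decide

/-!
# T2: the functionals which decide all the conditions
-/

set_option autoImplicit false

open Finset

namespace Pool.Agent.Lib.MP_fd6ff4_co.R43

variable {W : Finset Word} {Sy : SecSys W} {η : ℝ}

/-- the base part as a linear map -/
def llL : (Fin 7 → ℝ) →ₗ[ℝ] (Fin 4 → ℝ) where
  toFun := ll
  map_add' _ _ := rfl
  map_smul' _ _ := rfl

theorem llL_apply (x : Fin 7 → ℝ) : llL x = ll x := rfl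

/-- a fibre coordinate as a linear functional -/
def yyL (j : Fin 3) : (Fin 7 → ℝ) →ₗ[ℝ] ℝ where
  toFun x := yy x j
  map_add' _ _ := rfl
  map_smul' _ _ := rfl

theorem yyL_apply (j : Fin 3) (x : Fin 7 → ℝ) : yyL j x = yy x j := rfl

/-- the sum of the coordinates as a linear functional -/
def totL : (Fin 4 → ℝ) →ₗ[ℝ] ℝ where
  toFun := tot
  map_add' x y := by simp [tot, Finset.sum_add_distrib]
  map_smul' c x := by simp [tot, Finset.mul_sum]

theorem totL_apply (x : Fin 4 → ℝ) : totL x = tot x := rfl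

/-- a coordinate difference as a linear functional -/
def difL (p : Fin 4 × Fin 4) : (Fin 4 → ℝ) →ₗ[ℝ] ℝ where
  toFun x := x p.1 - x p.2
  map_add' x y := by simp only [Pi.add_apply]; ring
  map_smul' c x := by simp only [Pi.smul_apply, smul_eq_mul, RingHom.id_apply]; ring

theorem difL_apply (p : Fin 4 × Fin 4) (x : Fin 4 → ℝ) : difL p x = x p.1 - x p.2 := rfl

theorem ll_nonneg {x : Fin 7 → ℝ} (hx : ∀ i, 0 ≤ x i) (i : Fin 4) : 0 ≤ ll x i := hx _

theorem norm_fin3 (v : Fin 3 → ℝ) : ‖v‖ = max (max |v 0| |v 1|) |v 2| := by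
  refine le_antisymm ?_ ?_
  · refine (pi_norm_le_iff_of_nonneg ?_).2 fun j => ?_
    · exact le_max_of_le_right (abs_nonneg _)
    · rw [Real.norm_eq_abs]
      fin_cases j
      · exact le_max_of_le_left (le_max_left _ _)
      · exact le_max_of_le_left (le_max_right _ _)
      · exact le_max_right _ _
  · refine max_le (max_le ?_ ?_) ?_ <;> exact norm_le_pi_norm v _

theorem isPL_S {f : Word} (hf : f ∈ W) (j : Fin 3) :
    IsPL (fun x : Fin 7 → ℝ => Sy.S f (ll x) j) :=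
  (Sy.pl f hf j).comp llL fun _ hx k => ll_nonneg hx k

theorem isPL_diff {f : Word} (hf : f ∈ W) (j : Fin 3) :
    IsPL (fun x : Fin 7 → ℝ => (yy x - Sy.S f (ll x)) j) := by
  have h := (IsPL.linear (yyL j)).add ((isPL_S (Sy := Sy) hf j).smul (-1))
  have e : (fun x : Fin 7 → ℝ => (yy x - Sy.S f (ll x)) j) =
      fun x => yyL j x + -1 * Sy.S f (ll x) j := by
    funext x
    rw [Pi.sub_apply, yyL_apply]
    ring
  rw [e]
  exact h

theorem IsPL.abs {ι : Type*} [Fintype ι] [DecidableEq ι] {φ : (ι → ℝ) → ℝ} (h : IsPL φ) :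
    IsPL (fun x => |φ x|) := by
  have h' := h.sup (h.smul (-1))
  have e : (fun x => |φ x|) = fun x => max (φ x) (-1 * φ x) := by
    funext x
    rw [neg_one_mul]
    rfl
  rw [e]
  exact h'

/-- `uu f` is piecewise linear (`uu f x` is the minimum of the six functions
`η * tot (ll x) ± (yy x j - S f (ll x) j)`) -/
theorem isPL_uu {f : Word} (hf : f ∈ W) : IsPL (uu Sy η f) := by
  have h1 := fun j => (isPL_diff (Sy := Sy) hf j).abs
  have h := (IsPL.linear (η • (totL ∘ₗ llL))).add ((((h1 0).sup (h1 1)).sup (h1 2)).smul (-1))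
  have e : uu Sy η f = fun x => (η • (totL ∘ₗ llL)) x + -1 *
      max (max |(yy x - Sy.S f (ll x)) 0| |(yy x - Sy.S f (ll x)) 1|)
        |(yy x - Sy.S f (ll x)) 2| := by
    funext x
    rw [uu, norm_fin3, LinearMap.smul_apply, LinearMap.comp_apply, llL_apply, totL_apply,
      smul_eq_mul]
    ring
  rw [e]
  exact h

theorem SgnLe.eq_zero {ι : Type*} {L : Set ((ι → ℝ) →ₗ[ℝ] ℝ)} {x y : ι → ℝ} (h : SgnLe L x y)
    {m : (ι → ℝ) →ₗ[ℝ] ℝ} (hm : m ∈ L) (h0 : m y = 0) : m x = 0 := by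
  have h1 := h m hm
  rcases lt_trichotomy (m x) 0 with h2 | h2 | h2
  · exact absurd (h1.2 h2) (by rw [h0]; exact lt_irrefl 0)
  · exact h2
  · exact absurd (h1.1 h2) (by rw [h0]; exact lt_irrefl 0)

theorem SgnLe.mono {ι : Type*} {L L' : Set ((ι → ℝ) →ₗ[ℝ] ℝ)} (hL : L ⊆ L') {x y : ι → ℝ}
    (h : SgnLe L' x y) : SgnLe L x y := fun m hm => h m (hL hm)

variable (Sy η) in
/-- the functionals which decide the boundary pieces of one sheet in one direction -/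
theorem exists_piece {f : Word} (hf : f ∈ W) (j : Fin 3) :
    ∃ L : Set ((Fin 7 → ℝ) →ₗ[ℝ] ℝ), L.Finite ∧ ∀ y : Fin 7 → ℝ, 0 ≤ y →
      |(yy y - Sy.S f (ll y)) j| = η * tot (ll y) →
      ∃ B : (Fin 4 → ℝ) →ₗ[ℝ] ℝ, ∀ x : Fin 7 → ℝ, 0 ≤ x → SgnLe L x y → yy x j = B (ll x) := by
  obtain ⟨L, hL, h⟩ := Sy.pl f hf j
  obtain ⟨A, hA⟩ := h.pieces
  have : Finite L := hL.to_subtype
  refine ⟨(((fun m : (Fin 4 → ℝ) →ₗ[ℝ] ℝ => m ∘ₗ llL) '' L) ∪
    Set.range fun p : L → SignType => yyL j - (A p + η • totL) ∘ₗ llL) ∪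
    Set.range fun p : L → SignType => yyL j - (A p - η • totL) ∘ₗ llL,
    ((hL.image _).union (Set.finite_range _)).union (Set.finite_range _), fun y hy hyj => ?_⟩
  have key : ∀ x : Fin 7 → ℝ, 0 ≤ x → SgnLe ((((fun m : (Fin 4 → ℝ) →ₗ[ℝ] ℝ => m ∘ₗ llL) '' L) ∪
    Set.range fun p : L → SignType => yyL j - (A p + η • totL) ∘ₗ llL) ∪
    Set.range fun p : L → SignType => yyL j - (A p - η • totL) ∘ₗ llL) x y →
      SgnLe L (ll x) (ll y) := fun x _ hxy m hm => hxy (m ∘ₗ llL) (Or.inl (Or.inl ⟨m, hm, rfl⟩))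
  have e0 : Sy.S f (ll y) j = A (psign L (ll y)) (ll y) :=
    hA (ll y) (ll_nonneg hy) (ll y) (ll_nonneg hy) fun m _ => ⟨fun h => h, fun h => h⟩
  rw [Pi.sub_apply, e0] at hyj
  rcases le_or_gt 0 (yy y j - A (psign L (ll y)) (ll y)) with hs | hs
  · rw [abs_of_nonneg hs] at hyj
    refine ⟨A (psign L (ll y)) + η • totL, fun x _ hxy => ?_⟩
    have h0 := hxy.eq_zero (m := yyL j - (A (psign L (ll y)) + η • totL) ∘ₗ llL)
      (Or.inl (Or.inr ⟨_, rfl⟩)) (by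
        simp only [LinearMap.sub_apply, LinearMap.comp_apply, LinearMap.add_apply,
          LinearMap.smul_apply, yyL_apply, llL_apply, totL_apply, smul_eq_mul]
        linarith)
    simp only [LinearMap.sub_apply, LinearMap.comp_apply, yyL_apply, llL_apply] at h0
    linarith
  · rw [abs_of_neg hs] at hyj
    refine ⟨A (psign L (ll y)) - η • totL, fun x _ hxy => ?_⟩
    have h0 := hxy.eq_zero (m := yyL j - (A (psign L (ll y)) - η • totL) ∘ₗ llL)
      (Or.inr ⟨_, rfl⟩) (by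
        simp only [LinearMap.sub_apply, LinearMap.comp_apply,
          LinearMap.smul_apply, yyL_apply, llL_apply, totL_apply, smul_eq_mul]
        linarith)
    simp only [LinearMap.sub_apply, LinearMap.comp_apply, yyL_apply, llL_apply] at h0
    simp only [LinearMap.sub_apply]
    linarith

variable (Sy η) in
theorem exists_good : ∃ L : Set ((Fin 7 → ℝ) →ₗ[ℝ] ℝ), Good Sy η L := by
  have h1 : ∀ f : W, ∃ L : Set ((Fin 7 → ℝ) →ₗ[ℝ] ℝ), L.Finite ∧ ∀ x y : Fin 7 → ℝ, 0 ≤ x →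
      0 ≤ y → SgnLe L x y →
      (uu Sy η f.1 y ≤ 0 → uu Sy η f.1 x ≤ 0) ∧ (0 ≤ uu Sy η f.1 y → 0 ≤ uu Sy η f.1 x) :=
    fun f => (isPL_uu (Sy := Sy) (η := η) f.2).decide
  choose L₁ hL₁ h₁ using h1
  have h2 := fun (f : W) (j : Fin 3) => exists_piece Sy η f.2 j
  choose L₂ hL₂ h₂ using h2
  refine ⟨(Set.range fun p : Fin 4 × Fin 4 => difL p ∘ₗ llL) ∪
    ((⋃ f : W, L₁ f) ∪ ⋃ f : W, ⋃ j : Fin 3, L₂ f j), ?_, ?_, ?_, ?_, ?_⟩
  · refine (Set.finite_range _).union ((Set.finite_iUnion hL₁).union ?_)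
    exact Set.finite_iUnion fun f => Set.finite_iUnion fun j => hL₂ f j
  · intro i j x y _ _ hxy hij
    have h := (hxy (difL (i, j) ∘ₗ llL) (Or.inl ⟨(i, j), rfl⟩)).1
    simp only [LinearMap.comp_apply, difL_apply, llL_apply] at h
    by_contra hc
    have := h (by linarith [not_le.1 hc])
    linarith
  · intro f hf x y hx hy hxy
    exact (h₁ ⟨f, hf⟩ x y hx hy (hxy.mono fun m hm =>
      Or.inr (Or.inl (Set.mem_iUnion.2 ⟨⟨f, hf⟩, hm⟩)))).1
  · intro f hf x y hx hy hxy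
    exact (h₁ ⟨f, hf⟩ x y hx hy (hxy.mono fun m hm =>
      Or.inr (Or.inl (Set.mem_iUnion.2 ⟨⟨f, hf⟩, hm⟩)))).2
  · intro f hf y hy h0
    have hn : ‖yy y - Sy.S f (ll y)‖ = η * tot (ll y) := by
      rw [uu] at h0
      linarith
    have : ∃ j, |(yy y - Sy.S f (ll y)) j| = η * tot (ll y) := by
      rw [← hn, norm_fin3]
      rcases max_choice (max |(yy y - Sy.S f (ll y)) 0| |(yy y - Sy.S f (ll y)) 1|)
        |(yy y - Sy.S f (ll y)) 2| with h | h
      · rcases max_choice |(yy y - Sy.S f (ll y)) 0| |(yy y - Sy.S f (ll y)) 1| with h' | h'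
        · exact ⟨0, by rw [h, h']⟩
        · exact ⟨1, by rw [h, h']⟩
      · exact ⟨2, by rw [h]⟩
    obtain ⟨j, hj⟩ := this
    obtain ⟨B, hB⟩ := h₂ ⟨f, hf⟩ j y hy hj
    refine ⟨j, B, fun x hx hxy => hB x hx (hxy.mono fun m hm => ?_)⟩
    exact Or.inr (Or.inr (Set.mem_iUnion.2 ⟨⟨f, hf⟩, Set.mem_iUnion.2 ⟨j, hm⟩⟩))

theorem continuousOn_S {f : Word} (hf : f ∈ W) : ContinuousOn (Sy.S f) {l | 0 ≤ l} :=
  continuousOn_pi.2 fun j => (Sy.pl f hf j).continuousOn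

theorem S_smul {f : Word} (hf : f ∈ W) {c : ℝ} (hc : 0 ≤ c) {l : Fin 4 → ℝ} (hl : 0 ≤ l) :
    Sy.S f (c • l) = c • Sy.S f l := by
  funext j
  exact (Sy.pl f hf j).homog hc hl

theorem S_zero {f : Word} (hf : f ∈ W) : Sy.S f 0 = 0 := by
  funext j
  exact (Sy.pl f hf j).zero

end Pool.Agent.Lib.MP_fd6ff4_co.R43
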