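import Pool.Agent.Lib.MP_fd6ff4_co.R43.T2.MidB

/-!
# T2: the explicit map

The lemmas on the map `glue` are in `MidB` (well defined, positive, leaves `CC`) and `MidC`
(injective, surjective).
-/
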