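import Mathlib
import Pool.Agent.Lib.MP_fd6ff4_co.R43.T2.Mid

/-!
# T2: the explicit map is bijective, second half (parts (A) - (C), (E), (F) of h63_R43_T2.md)
-/

set_option autoImplicit false

open Finset

namespace Pool.Agent.Lib.MP_fd6ff4_co.R43

variable {W : Finset Word} {Sy : SecSys W} {η : ℝ}

theorem mc_ll_nonneg {x : Fin 7 → ℝ} (hx : 0 ≤ x) : 0 ≤ ll x := fun i => hx (bas i)

theorem mc_col_nonneg {w : CV → ℝ} (hw : ∀ v, 0 ≤ w v) : 0 ≤ col w := fun _ =>
  Finset.sum_nonneg fun _ _ => hw _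

theorem mc_ll_glue (f : Word) (w : CV → ℝ) (q : Fin 7 → ℝ) :
    ll (glue Sy f w q) = ll q + col w := ll_mk _ _

theorem mc_yy_glue (f : Word) (w : CV → ℝ) (q : Fin 7 → ℝ) :
    yy (glue Sy f w q) = yy q + (Sy.S f (ll q + col w) - Sy.S f (ll q)) := yy_mk _ _

theorem Adm.mc_norm_eq {f : Word} {w : CV → ℝ} {q : Fin 7 → ℝ} (h : Adm Sy η f w q) :
    ‖yy q - Sy.S f (ll q)‖ = η * tot (ll q) := by
  have := h.q_eq
  unfold uu at this
  linarith

theorem Adm.mc_nonneg_sum {f : Word} {w : CV → ℝ} {q : Fin 7 → ℝ} (h : Adm Sy η f w q) :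
    0 ≤ ll q + col w := add_nonneg (mc_ll_nonneg h.q_mem.1.1) (mc_col_nonneg h.nonneg)

/-- the distance of `glue` to the sheet is the distance of `q` -/
theorem mc_yy_glue_sub (f : Word) (w : CV → ℝ) (q : Fin 7 → ℝ) :
    yy (glue Sy f w q) - Sy.S f (ll (glue Sy f w q)) = yy q - Sy.S f (ll q) := by
  rw [mc_yy_glue, mc_ll_glue]
  abel

/-- (E), first half: the word `f` is a nearest one for `x = HH (w, q)`, the distance is
`η * tot (ll q)` -/
theorem glue_near (hη : Small Sy η) (hS : ∀ f ∈ W, Sy.S f 0 = 0) {f g : Word} {w : CV → ℝ}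
    {q : Fin 7 → ℝ} (h : Adm Sy η f w q) (hw : w ≠ 0) (hg : g ∈ W) :
    ‖yy (glue Sy f w q) - Sy.S f (ll (glue Sy f w q))‖ = η * tot (ll q) ∧
      η * tot (ll q) ≤ ‖yy (glue Sy f w q) - Sy.S g (ll (glue Sy f w q))‖ := by
  have h1 : ‖yy (glue Sy f w q) - Sy.S f (ll (glue Sy f w q))‖ = η * tot (ll q) := by
    rw [mc_yy_glue_sub, h.mc_norm_eq]
  refine ⟨h1, ?_⟩
  obtain ⟨t, ht0, htr, -, -⟩ := h.exists_h hw
  by_contra hc
  push Not at hc
  have h2 : ‖Sy.S f (ll q + col w) - Sy.S g (ll q + col w)‖ ≤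
      2 * η * tot (tr (ll q + col w) t) := by
    rw [htr]
    have e : Sy.S f (ll q + col w) - Sy.S g (ll q + col w) =
        (yy (glue Sy f w q) - Sy.S g (ll (glue Sy f w q))) -
          (yy (glue Sy f w q) - Sy.S f (ll (glue Sy f w q))) := by
      rw [mc_ll_glue]
      abel
    rw [e]
    have := norm_sub_le (yy (glue Sy f w q) - Sy.S g (ll (glue Sy f w q)))
      (yy (glue Sy f w q) - Sy.S f (ll (glue Sy f w q)))
    linarith
  obtain ⟨-, h3⟩ := close_words hη h.mem hg h.mc_nonneg_sum ht0 h2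
  rw [htr] at h3
  have h4 : yy (glue Sy f w q) - Sy.S g (ll (glue Sy f w q)) = yy q - Sy.S g (ll q) := by
    rw [mc_yy_glue, mc_ll_glue]
    have : yy q + (Sy.S f (ll q + col w) - Sy.S f (ll q)) - Sy.S g (ll q + col w) =
        yy q - Sy.S f (ll q) + (Sy.S f (ll q + col w) - Sy.S g (ll q + col w)) := by abel
    rw [this, h3]
    abel
  rw [h4] at hc
  have h5 := h.q_mem.1.2 g hg
  unfold uu at h5
  linarith

/-- (E) injectivity -/
theorem glue_inj (hη : Small Sy η) (hS : ∀ f ∈ W, Sy.S f 0 = 0) {f f' : Word} {w w' : CV → ℝ}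
    {q q' : Fin 7 → ℝ} (h : Adm Sy η f w q) (h' : Adm Sy η f' w' q') (hw : w ≠ 0) (hw' : w' ≠ 0)
    (e : glue Sy f w q = glue Sy f' w' q') : w = w' ∧ q = q' := by
  obtain ⟨a1, a2⟩ := glue_near hη hS h hw h'.mem
  obtain ⟨b1, b2⟩ := glue_near hη hS h' hw' h.mem
  rw [← e] at b1 b2
  rw [b1] at a2
  rw [a1] at b2
  have hηp := hη.pos
  have htot : tot (ll q) = tot (ll q') := by
    have : η * tot (ll q) = η * tot (ll q') := le_antisymm a2 b2
    exact mul_left_cancel₀ hηp.ne' this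
  have hl : ll q + col w = ll q' + col w' := by
    have := congrArg ll e
    rwa [mc_ll_glue, mc_ll_glue] at this
  obtain ⟨t, ht0, htr, -, -⟩ := h.exists_h hw
  obtain ⟨t', ht0', htr', -, -⟩ := h'.exists_h hw'
  rw [← hl] at htr'
  have hll : ll q = ll q' := by
    have h1 : tot (tr (ll q + col w) t) = tot (tr (ll q + col w) t') := by
      rw [htr, htr', htot]
    have h2 := tr_eq_of_tot h1
    rwa [htr, htr'] at h2
  have hcol : col w = col w' := by
    rw [hll] at hl
    exact add_left_cancel hl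
  have h2 : ‖Sy.S f (ll q + col w) - Sy.S f' (ll q + col w)‖ ≤
      2 * η * tot (tr (ll q + col w) t) := by
    rw [htr]
    have e2 : Sy.S f (ll q + col w) - Sy.S f' (ll q + col w) =
        (yy (glue Sy f w q) - Sy.S f' (ll (glue Sy f w q))) -
          (yy (glue Sy f w q) - Sy.S f (ll (glue Sy f w q))) := by
      rw [mc_ll_glue]
      abel
    rw [e2]
    have := norm_sub_le (yy (glue Sy f w q) - Sy.S f' (ll (glue Sy f w q)))
      (yy (glue Sy f w q) - Sy.S f (ll (glue Sy f w q)))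
    rw [a1, b1, ← htot] at this
    linarith
  obtain ⟨h3, h4⟩ := close_words hη h.mem h'.mem h.mc_nonneg_sum ht0 h2
  rw [htr] at h4
  constructor
  · rw [h.inw.eq_onw, h'.inw.eq_onw, ← hcol]
    funext ⟨i, a⟩
    by_cases hi : f i = f' i
    · simp only [onw, hi]
    · have h5 := h3 i hi
      have h6 := congrFun htr i
      simp only [tr] at h6
      rw [min_eq_left h5, Pi.add_apply] at h6
      have h7 : col w i = 0 := by linarith
      simp only [onw, h7, ite_self]
  · have hyy : yy q = yy q' := by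
      have h5 := congrArg yy e
      rw [mc_yy_glue, mc_yy_glue, ← hl, ← hll] at h5
      have h6 : Sy.S f (ll q + col w) - Sy.S f (ll q) =
          Sy.S f' (ll q + col w) - Sy.S f' (ll q) := by
        rw [sub_eq_sub_iff_add_eq_add] at h4 ⊢
        rw [h4]
        abel
      rw [h6] at h5
      exact add_right_cancel h5
    rw [← mk_eta q, ← mk_eta q', hyy, hll]

/-- (A) - (C), (F) surjectivity: `f` a nearest word, `h` with `η * tot (tr (ll x) h)` equal to the
distance, `w = ll x - tr (ll x) h` on `f`,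
`q = mk (yy x - S f (ll x) + S f (tr (ll x) h)) (tr (ll x) h)` -/
theorem exists_glue (hη : Small Sy η) (hS : ∀ f ∈ W, Sy.S f 0 = 0) {x : Fin 7 → ℝ} (hx : 0 ≤ x)
    (hx' : x ∉ CC Sy η) : ∃ f w q, Adm Sy η f w q ∧ w ≠ 0 ∧ glue Sy f w q = x := by
  have hηp := hη.pos
  have hlx := mc_ll_nonneg hx
  obtain ⟨f₀, hf₀, hu₀⟩ : ∃ f ∈ W, 0 < uu Sy η f x := by
    by_contra hc
    push Not at hc
    exact hx' ⟨hx, hc⟩
  obtain ⟨f, hf, hmin⟩ := W.exists_min_image (fun f => ‖yy x - Sy.S f (ll x)‖) ⟨f₀, hf₀⟩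
  have hm : ‖yy x - Sy.S f (ll x)‖ < η * tot (ll x) := by
    have h1 := hmin f₀ hf₀
    unfold uu at hu₀
    linarith
  obtain ⟨t, ht0, htt⟩ := exists_tr (ll x) hlx (‖yy x - Sy.S f (ll x)‖ / η)
    (div_nonneg (norm_nonneg _) hηp.le) (by
      rw [div_le_iff₀ hηp, mul_comm]
      exact hm.le)
  have htm : η * tot (tr (ll x) t) = ‖yy x - Sy.S f (ll x)‖ := by
    rw [htt]
    field_simp
  set l := ll x with hl
  set q : Fin 7 → ℝ := mk (yy x - Sy.S f l + Sy.S f (tr l t)) (tr l t) with hq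
  set w : CV → ℝ := onw f (l - tr l t) with hw
  have hllq : ll q = tr l t := by rw [hq, ll_mk]
  have hyyq : yy q = yy x - Sy.S f l + Sy.S f (tr l t) := by rw [hq, yy_mk]
  have hcolw : col w = l - tr l t := by rw [hw, col_onw]
  have htr0 : 0 ≤ tr l t := tr_nonneg hlx ht0
  have hqf : uu Sy η f q = 0 := by
    unfold uu
    rw [hllq, hyyq, add_sub_cancel_right, htm, sub_self]
  have hq0 : 0 ≤ q := by
    have h1 : ∀ j, 0 ≤ yy q j := by
      intro j
      rw [hyyq, Pi.add_apply]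
      have h2 := norm_le_pi_norm (yy x - Sy.S f l) j
      have h3 := Sy.pos f hf (tr l t) htr0 j
      rw [Real.norm_eq_abs, ← htm] at h2
      have h4 := (abs_le.1 h2).1
      have h5 : 0 ≤ tot (tr l t) := Finset.sum_nonneg fun i _ => htr0 i
      have h6 : η * tot (tr l t) ≤ Sy.κ * tot (tr l t) :=
        mul_le_mul_of_nonneg_right hη.box.le h5
      linarith
    intro k
    rw [hq]
    show 0 ≤ mk _ _ k
    unfold mk
    split_ifs with hk
    · rw [← hyyq]
      exact h1 _
    · exact htr0 _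
  have hqC : ∀ g ∈ W, uu Sy η g q ≤ 0 := by
    intro g hg
    by_contra hc
    push Not at hc
    unfold uu at hc
    rw [hllq] at hc
    have h1 : 0 < tot (tr l t) := by
      by_contra h2
      push Not at h2
      have h3 := mul_nonpos_of_nonneg_of_nonpos hηp.le h2
      have h4 := norm_nonneg (yy q - Sy.S g (tr l t))
      linarith
    have ht : 0 < t := by
      have := tot_tr_le l t
      linarith
    have h2 : ‖Sy.S f (tr l t) - Sy.S g (tr l t)‖ ≤ 2 * η * tot (tr l t) := by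
      have e : Sy.S f (tr l t) - Sy.S g (tr l t) =
          (yy q - Sy.S g (tr l t)) - (yy x - Sy.S f l) := by
        rw [hyyq]
        abel
      rw [e]
      have := norm_sub_le (yy q - Sy.S g (tr l t)) (yy x - Sy.S f l)
      rw [← htm] at this
      linarith
    obtain ⟨-, h3⟩ := close_words' hη hf hg hlx ht h2
    have h4 : yy q - Sy.S g (tr l t) = yy x - Sy.S g l := by
      rw [hyyq]
      have : yy x - Sy.S f l + Sy.S f (tr l t) - Sy.S g (tr l t) =
          yy x - Sy.S f l + (Sy.S f (tr l t) - Sy.S g (tr l t)) := by abel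
      rw [this, ← h3]
      abel
    rw [h4] at hc
    have h5 : ‖yy x - Sy.S f l‖ ≤ ‖yy x - Sy.S g l‖ := hmin g hg
    rw [← htm] at h5
    linarith
  refine ⟨f, w, q, ⟨hf, ?_, inW_onw f _, ⟨⟨hq0, hqC⟩, ?_⟩, hqf⟩, ?_, ?_⟩
  · intro v
    rw [hw]
    unfold onw
    split_ifs
    · rw [Pi.sub_apply, sub_nonneg]
      exact min_le_left _ _
    · exact le_rfl
  · intro v hv
    have hv1 : w v ≠ 0 := (Finset.mem_filter.1 hv).2
    have hv2 : f v.1 = v.2 := inW_onw f _ v hv1
    have hv3 : l v.1 - min (l v.1) t ≠ 0 := by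
      rw [hw] at hv1
      simp only [onw, hv2, if_true] at hv1
      exact hv1
    have hv4 : t ≤ l v.1 := by
      by_contra hc
      push Not at hc
      exact hv3 (by rw [min_eq_left hc.le, sub_self])
    refine ⟨fun j => ?_, f, hf, hv2, hqf.ge⟩
    rw [hllq]
    simp only [tr]
    rw [min_eq_right hv4]
    exact min_le_right _ _
  · intro h0
    have h1 : col w = 0 := by
      rw [h0]
      funext i
      simp [col]
    rw [hcolw, sub_eq_zero] at h1
    rw [← h1] at htm
    linarith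
  · unfold glue
    rw [hllq, hcolw, hyyq]
    have e1 : tr l t + (l - tr l t) = l := by abel
    rw [e1]
    have e2 : yy x - Sy.S f l + Sy.S f (tr l t) + (Sy.S f l - Sy.S f (tr l t)) = yy x := by abel
    rw [e2, hl]
    exact mk_eta x

end Pool.Agent.Lib.MP_fd6ff4_co.R43
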