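import Mathlib
import Pool.Agent.Lib.MP_fd6ff4_co.R43.T2.MidC
import Pool.Agent.Lib.MP_fd6ff4_co.R43.T2.Fan7
import Pool.Agent.Lib.MP_fd6ff4_co.R43.T2.Good

/-!
# T2: the map `HH` on the cone over the complex
-/

set_option autoImplicit false

open Finset

namespace Pool.Agent.Lib.MP_fd6ff4_co.R43

variable {W : Finset Word} {Sy : SecSys W} {η : ℝ} {L : Set ((Fin 7 → ℝ) →ₗ[ℝ] ℝ)} {Φ : Fan L}

/-! ### preparations -/

theorem bij_LL_anti {α β : Finset CV} (h : β ⊆ α) {x : Fin 7 → ℝ} (hx : x ∈ LL Sy η α) :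
    x ∈ LL Sy η β :=
  ⟨hx.1, fun v hv => hx.2 v (h hv)⟩

theorem bij_P_nonneg (Φ : Fan L) (s : Fin Φ.n) : 0 ≤ Φ.P s := fun i => (Φ.P_mem s).1 i

theorem bij_sum_nonneg (Φ : Fan L) (F : Finset (Fin Φ.n)) : 0 ≤ ∑ s ∈ F, Φ.P s :=
  Finset.sum_nonneg fun s _ => bij_P_nonneg Φ s

theorem bij_col_zero : col (0 : CV → ℝ) = 0 := by
  funext i
  simp [col]

theorem bij_glue_zero (f : Word) (q : Fin 7 → ℝ) : glue Sy f 0 q = q := by
  rw [glue, bij_col_zero, add_zero, sub_self, add_zero, mk_eta]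

theorem bij_HH_zero {z : VV Sy η Φ → ℝ} (h : wpt Sy η Φ z = 0) :
    HH Sy η Φ z = bpt Sy η Φ z := by
  rw [HH, if_pos h]

theorem bij_spw_subset {z : VV Sy η Φ → ℝ} {G : Finset (VV Sy η Φ)} (hz : z ∈ cellc G) :
    spw (wpt Sy η Φ z) ⊆ alp Sy η Φ G := by
  intro v hv
  rw [spw, mem_filter] at hv
  rw [mem_alp]
  exact hz.2 _ hv.2

theorem bij_ext {z z' : VV Sy η Φ → ℝ} (hw : wpt Sy η Φ z = wpt Sy η Φ z')
    (h : ∀ s : FV Sy η Φ, z (Sum.inr s) = z' (Sum.inr s)) : z = z' := by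
  funext v
  rcases v with v | s
  · exact congrFun hw v
  · exact h s

/-- the complex is closed under subsets -/
theorem cplx_down (hL : Good Sy η L) {G G' : Finset (VV Sy η Φ)} (h : G ∈ cplx Sy η Φ)
    (h' : G' ⊆ G) : G' ∈ cplx Sy η Φ := by
  classical
  rw [mem_cplx] at h ⊢
  have ha : alp Sy η Φ G' ⊆ alp Sy η Φ G := fun v hv => by
    rw [mem_alp] at hv ⊢
    exact h' hv
  have hr : rho Sy η Φ G' ⊆ rho Sy η Φ G := fun v hv => by
    rw [mem_rho] at hv ⊢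
    obtain ⟨h1, h2⟩ := hv
    exact ⟨h1, h' h2⟩
  refine ⟨?_, Φ.down _ h.face _ hr, ?_⟩
  · obtain ⟨f, hf, h1⟩ := h.word
    exact ⟨f, hf, fun v hv => h1 v (ha hv)⟩
  · refine bij_LL_anti ha ?_
    have h1 := sgnLe_face (Φ := Φ) h.face (c := fun _ => 1)
      (c' := fun s => if s ∈ rho Sy η Φ G' then 1 else 0) (fun _ _ => one_pos)
      (fun s _ => by
        split_ifs
        · exact zero_le_one
        · exact le_refl _)
    have h2 : ∑ s ∈ rho Sy η Φ G, (if s ∈ rho Sy η Φ G' then (1 : ℝ) else 0) • Φ.P s =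
        ∑ s ∈ rho Sy η Φ G', Φ.P s := by
      rw [← Finset.sum_subset hr]
      · refine Finset.sum_congr rfl fun s hs => ?_
        rw [if_pos hs, one_smul]
      · intro s _ hs
        rw [if_neg hs, zero_smul]
    have h3 : ∑ s ∈ rho Sy η Φ G, (1 : ℝ) • Φ.P s = ∑ s ∈ rho Sy η Φ G, Φ.P s :=
      Finset.sum_congr rfl fun s _ => one_smul _ _
    rw [h2, h3] at h1
    exact LL_of_sgnLe hL (bij_sum_nonneg Φ _) h1 h.mem

/-- a word at distance `η * tot` which contains one coarse vertex contains all -/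
theorem bij_word (hη : Small Sy η) {q : Fin 7 → ℝ} {f f' : Word} (hf : f ∈ W) (hf' : f' ∈ W)
    (hq : 0 ≤ q) (h : uu Sy η f q = 0) (h' : uu Sy η f' q = 0) (h0 : ll q ≠ 0) {i : Fin 4}
    (hi : ∀ j, ll q j ≤ ll q i) : f i = f' i := by
  by_contra hne
  have hl : 0 ≤ ll q := fun j => hq _
  have hpos : 0 < ll q i := by
    obtain ⟨j, hj⟩ := Function.ne_iff.1 h0
    exact lt_of_lt_of_le (lt_of_le_of_ne (hl j) (Ne.symm hj)) (hi j)
  have h1 := Sy.sep f hf f' hf' (ll q) hl i hne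
  have h2 : ‖Sy.S f (ll q) - Sy.S f' (ll q)‖ ≤ 2 * η * tot (ll q) := by
    have e : Sy.S f (ll q) - Sy.S f' (ll q) =
        (yy q - Sy.S f' (ll q)) - (yy q - Sy.S f (ll q)) := by abel
    rw [e]
    refine (norm_sub_le _ _).trans ?_
    rw [uu] at h h'
    linarith
  have h3 : tot (ll q) ≤ 4 * ll q i := by
    rw [tot]
    calc ∑ j, ll q j ≤ ∑ _j : Fin 4, ll q i := Finset.sum_le_sum fun j _ => hi j
      _ = 4 * ll q i := by simp
  have h4 := hη.pos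
  have h5 := hη.quarter
  have h6 : 2 * η * tot (ll q) ≤ 2 * η * (4 * ll q i) := by
    refine mul_le_mul_of_nonneg_left h3 (by positivity)
  nlinarith

/-- for a point of the cone with `w ≠ 0` there is an admissible word -/
theorem exists_adm (hη : Small Sy η) (hL : Good Sy η L) {z : VV Sy η Φ → ℝ}
    (hz : z ∈ Cone (cplx Sy η Φ)) (hw : wpt Sy η Φ z ≠ 0) :
    ∃ f, Adm Sy η f (wpt Sy η Φ z) (bpt Sy η Φ z) := by
  obtain ⟨G, hG, hzG⟩ := hz
  have hq := bpt_mem_LL hL hG hzG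
  have hsub := bij_spw_subset hzG
  have hq0 : 0 ≤ bpt Sy η Φ z := hq.1.1
  obtain ⟨v, hv⟩ := Function.ne_iff.1 hw
  have hva : v ∈ alp Sy η Φ G := hsub (by
    rw [spw, mem_filter]
    exact ⟨mem_univ _, hv⟩)
  obtain ⟨g, hg, hgw⟩ := ((mem_cplx Sy η Φ G).1 hG).word
  obtain ⟨-, f, hf, hfv, hfu⟩ := hq.2 v hva
  have hfu0 : uu Sy η f (bpt Sy η Φ z) = 0 := le_antisymm (hq.1.2 f hf) hfu
  have hin : ∀ u, wpt Sy η Φ z u ≠ 0 → u ∈ alp Sy η Φ G := fun u hu => hsub (by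
    rw [spw, mem_filter]
    exact ⟨mem_univ _, hu⟩)
  by_cases h0 : ll (bpt Sy η Φ z) = 0
  · refine ⟨g, hg, fun u => hzG.1 _, fun u hu => hgw u (hin u hu), bij_LL_anti hsub hq, ?_⟩
    rw [uu, h0, S_zero hf, sub_zero] at hfu0
    rw [uu, h0, S_zero hg, sub_zero]
    exact hfu0
  · refine ⟨f, hf, fun u => hzG.1 _, fun u hu => ?_, bij_LL_anti hsub hq, hfu0⟩
    obtain ⟨h1, f', hf', hf'u, hf'0⟩ := hq.2 u (hin u hu)
    rw [← hf'u]
    exact bij_word hη hf hf' hq0 hfu0 (le_antisymm (hq.1.2 f' hf') hf'0) h0 h1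

/-- `HH z` can be computed with any admissible word -/
theorem HH_eq (hη : Small Sy η) {z : VV Sy η Φ → ℝ} {f : Word}
    (h : Adm Sy η f (wpt Sy η Φ z) (bpt Sy η Φ z)) :
    HH Sy η Φ z = glue Sy f (wpt Sy η Φ z) (bpt Sy η Φ z) := by
  by_cases hw : wpt Sy η Φ z = 0
  · rw [bij_HH_zero hw, hw, bij_glue_zero]
  · have hex : ∃ f, Adm Sy η f (wpt Sy η Φ z) (bpt Sy η Φ z) := ⟨f, h⟩
    rw [HH, if_neg hw, dif_pos hex]
    exact glue_eq hη (fun f hf => S_zero hf) hex.choose_spec h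

theorem HH_nonneg (hη : Small Sy η) (hL : Good Sy η L) {z : VV Sy η Φ → ℝ}
    (hz : z ∈ Cone (cplx Sy η Φ)) : 0 ≤ HH Sy η Φ z := by
  by_cases hw : wpt Sy η Φ z = 0
  · rw [bij_HH_zero hw]
    obtain ⟨G, -, hzG⟩ := hz
    exact bpt_nonneg hzG.1
  · obtain ⟨f, hf⟩ := exists_adm hη hL hz hw
    rw [HH_eq hη hf]
    exact glue_nonneg hη hf

theorem bij_uu_smul {f : Word} (hf : f ∈ W) {c : ℝ} (hc : 0 ≤ c) {q : Fin 7 → ℝ} (hq : 0 ≤ q) :
    uu Sy η f (c • q) = c * uu Sy η f q := by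
  have h1 : ll (c • q) = c • ll q := rfl
  have h2 : yy (c • q) = c • yy q := rfl
  have h3 : tot (c • ll q) = c * tot (ll q) := by
    simp only [tot, Pi.smul_apply, smul_eq_mul, Finset.mul_sum]
  rw [uu, uu, h1, h2, h3, S_smul hf hc (l := ll q) (fun j => hq _), ← smul_sub, norm_smul, Real.norm_eq_abs,
    abs_of_nonneg hc]
  ring

theorem bij_LL_smul {α : Finset CV} {c : ℝ} (hc : 0 ≤ c) {q : Fin 7 → ℝ}
    (hq : q ∈ LL Sy η α) : c • q ∈ LL Sy η α := by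
  refine ⟨⟨smul_nonneg hc hq.1.1, fun f hf => ?_⟩, fun v hv => ⟨fun j => ?_, ?_⟩⟩
  · rw [bij_uu_smul hf hc hq.1.1]
    exact mul_nonpos_of_nonneg_of_nonpos hc (hq.1.2 f hf)
  · exact mul_le_mul_of_nonneg_left ((hq.2 v hv).1 j) hc
  · obtain ⟨f, hf, h1, h2⟩ := (hq.2 v hv).2
    refine ⟨f, hf, h1, ?_⟩
    rw [bij_uu_smul hf hc hq.1.1]
    exact mul_nonneg hc h2

theorem bij_bpt_smul (z : VV Sy η Φ → ℝ) (c : ℝ) :
    bpt Sy η Φ (c • z) = c • bpt Sy η Φ z := by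
  rw [bpt, bpt, Finset.smul_sum]
  refine Finset.sum_congr rfl fun s _ => ?_
  rw [smul_smul]
  rfl

theorem bij_adm_smul {f : Word} {w : CV → ℝ} {q : Fin 7 → ℝ} (h : Adm Sy η f w q) {c : ℝ}
    (hc : 0 < c) : Adm Sy η f (c • w) (c • q) := by
  have hs : spw (c • w) = spw w := by
    ext v
    simp [spw, hc.ne']
  refine ⟨h.mem, fun v => mul_nonneg hc.le (h.nonneg v), fun v hv => h.inw v ?_, ?_, ?_⟩
  · intro h0
    exact hv (by simp [h0])
  · rw [hs]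
    exact bij_LL_smul hc.le h.q_mem
  · rw [bij_uu_smul h.mem hc.le h.q_mem.1.1, h.q_eq, mul_zero]

theorem bij_mk_smul (c : ℝ) (y : Fin 3 → ℝ) (l : Fin 4 → ℝ) : mk (c • y) (c • l) = c • mk y l := by
  funext k
  by_cases h : k.1 < 3
  · simp [mk, h]
  · simp [mk, h]

theorem bij_glue_smul {f : Word} {w : CV → ℝ} {q : Fin 7 → ℝ} (h : Adm Sy η f w q) {c : ℝ}
    (hc : 0 ≤ c) : glue Sy f (c • w) (c • q) = c • glue Sy f w q := by
  have h1 : ll (c • q) = c • ll q := rfl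
  have h2 : yy (c • q) = c • yy q := rfl
  have h3 : col (c • w) = c • col w := by
    funext i
    simp only [col, Pi.smul_apply, smul_eq_mul, Finset.mul_sum]
  have hq : 0 ≤ ll q := fun j => h.q_mem.1.1 _
  have hcw : 0 ≤ col w := fun i => Finset.sum_nonneg fun a _ => h.nonneg (i, a)
  rw [glue, glue, h1, h2, h3, ← smul_add, S_smul h.mem hc (add_nonneg hq hcw),
    S_smul h.mem hc hq, ← smul_sub, ← smul_add, bij_mk_smul]

theorem HH_smul (hη : Small Sy η) (hL : Good Sy η L) {z : VV Sy η Φ → ℝ}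
    (hz : z ∈ Cone (cplx Sy η Φ)) {c : ℝ} (hc : 0 ≤ c) :
    HH Sy η Φ (c • z) = c • HH Sy η Φ z := by
  have hw1 : wpt Sy η Φ (c • z) = c • wpt Sy η Φ z := rfl
  by_cases hw : wpt Sy η Φ z = 0
  · rw [bij_HH_zero hw, bij_HH_zero (by rw [hw1, hw, smul_zero]), bij_bpt_smul]
  · rcases hc.eq_or_lt with h0 | hc
    · subst h0
      rw [bij_HH_zero (by rw [hw1, zero_smul]), bij_bpt_smul, zero_smul, zero_smul]
    · obtain ⟨f, hf⟩ := exists_adm hη hL hz hw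
      have hf' := bij_adm_smul hf hc
      rw [← hw1, ← bij_bpt_smul] at hf'
      rw [HH_eq hη hf, HH_eq hη hf', hw1, bij_bpt_smul, bij_glue_smul hf hc.le]

theorem bij_ne (hη : Small Sy η) (hL : Good Sy η L) {z z' : VV Sy η Φ → ℝ}
    (hz : z ∈ Cone (cplx Sy η Φ)) (hz' : z' ∈ Cone (cplx Sy η Φ)) (hw : wpt Sy η Φ z ≠ 0)
    (hw' : wpt Sy η Φ z' = 0) : HH Sy η Φ z ≠ HH Sy η Φ z' := by
  intro h
  obtain ⟨f, hf⟩ := exists_adm hη hL hz hw
  have h1 := glue_notMem hη hf hw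
  rw [← HH_eq hη hf, h, bij_HH_zero hw'] at h1
  obtain ⟨G, hG, hzG⟩ := hz'
  have h2 := (bpt_mem_LL hL hG hzG).1.2 f hf.mem
  linarith

theorem HH_inj (hη : Small Sy η) (hL : Good Sy η L) :
    Set.InjOn (HH Sy η Φ) (Cone (cplx Sy η Φ)) := by
  intro z hz z' hz' h
  by_cases hw : wpt Sy η Φ z = 0
  · by_cases hw' : wpt Sy η Φ z' = 0
    · rw [bij_HH_zero hw, bij_HH_zero hw'] at h
      exact bij_ext (hw.trans hw'.symm) (bpt_inj hz hz' h)
    · exact absurd h.symm (bij_ne hη hL hz' hz hw' hw)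
  · by_cases hw' : wpt Sy η Φ z' = 0
    · exact absurd h (bij_ne hη hL hz hz' hw hw')
    · obtain ⟨f, hf⟩ := exists_adm hη hL hz hw
      obtain ⟨f', hf'⟩ := exists_adm hη hL hz' hw'
      rw [HH_eq hη hf, HH_eq hη hf'] at h
      obtain ⟨h1, h2⟩ := glue_inj hη (fun f hf => S_zero hf) hf hf' hw hw' h
      exact bij_ext h1 (bpt_inj hz hz' h2)

/-- a face from a set of coarse vertices and a face of the fan -/
theorem bij_face {α : Finset CV} {F : Finset (Fin Φ.n)} {f : Word} (hf : f ∈ W)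
    (hα : ∀ v ∈ α, f v.1 = v.2) (hF : F ∈ Φ.K) (hC : ∀ s ∈ F, Φ.P s ∈ CC Sy η)
    (hS : ∑ s ∈ F, Φ.P s ∈ LL Sy η α) {w : CV → ℝ} (hw0 : ∀ v, 0 ≤ w v)
    (hw : ∀ v, w v ≠ 0 → v ∈ α) {t : FV Sy η Φ → ℝ} (ht0 : ∀ s, 0 ≤ t s)
    (ht : ∀ s, t s ≠ 0 → s.1 ∈ F) :
    (Sum.elim w t : VV Sy η Φ → ℝ) ∈ Cone (cplx Sy η Φ) := by
  classical
  set G : Finset (VV Sy η Φ) := univ.filter fun v =>
    Sum.elim (fun u : CV => u ∈ α) (fun s : FV Sy η Φ => s.1 ∈ F) v with hG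
  have ha : alp Sy η Φ G = α := by
    ext v
    rw [mem_alp]
    simp [hG]
  have hr : rho Sy η Φ G = F := by
    ext s
    rw [mem_rho]
    constructor
    · rintro ⟨h1, h2⟩
      simpa [hG] using h2
    · intro hs
      exact ⟨hC s hs, by simpa [hG] using hs⟩
  refine ⟨G, ?_, ?_, ?_⟩
  · rw [mem_cplx]
    refine ⟨⟨f, hf, ?_⟩, ?_, ?_⟩
    · rw [ha]
      exact hα
    · rw [hr]
      exact hF
    · rw [ha, hr]
      exact hS
  · rintro (v | s)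
    · exact hw0 v
    · exact ht0 s
  · rintro (v | s) hv
    · simpa [hG] using hw v hv
    · simpa [hG] using ht s hv

theorem HH_surj (hη : Small Sy η) (hL : Good Sy η L) (hW : W.Nonempty) {x : Fin 7 → ℝ}
    (hx : 0 ≤ x) : ∃ z ∈ Cone (cplx Sy η Φ), HH Sy η Φ z = x := by
  by_cases hC : x ∈ CC Sy η
  · obtain ⟨t, F, ht0, hF, htF, hFC, hS, hsum⟩ := exists_bpt (Φ := Φ) hL (α := ∅) (q := x)
      ⟨hC, fun v hv => absurd hv (notMem_empty v)⟩
    obtain ⟨f, hf⟩ := hW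
    refine ⟨Sum.elim 0 t, bij_face hf (fun v hv => absurd hv (notMem_empty v)) hF hFC hS
      (fun v => le_refl _) (fun v hv => absurd rfl hv) ht0 (fun s hs => (htF s).1 hs), ?_⟩
    have hw : wpt Sy η Φ (Sum.elim 0 t : VV Sy η Φ → ℝ) = 0 := rfl
    rw [bij_HH_zero hw]
    exact hsum
  · obtain ⟨f, w, q, hA, hw, hg⟩ := exists_glue hη (fun f hf => S_zero hf) hx hC
    obtain ⟨t, F, ht0, hF, htF, hFC, hS, hsum⟩ := exists_bpt (Φ := Φ) hL hA.q_mem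
    have hwp : wpt Sy η Φ (Sum.elim w t : VV Sy η Φ → ℝ) = w := rfl
    have hbp : bpt Sy η Φ (Sum.elim w t : VV Sy η Φ → ℝ) = q := hsum
    refine ⟨Sum.elim w t, bij_face hA.mem (fun v hv => hA.inw v ?_) hF hFC hS
      hA.nonneg (fun v hv => ?_) ht0 (fun s hs => (htF s).1 hs), ?_⟩
    · rw [spw, mem_filter] at hv
      exact hv.2
    · rw [spw, mem_filter]
      exact ⟨mem_univ _, hv⟩
    · have hA' : Adm Sy η f (wpt Sy η Φ (Sum.elim w t : VV Sy η Φ → ℝ))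
          (bpt Sy η Φ (Sum.elim w t : VV Sy η Φ → ℝ)) := by
        rw [hwp, hbp]
        exact hA
      rw [HH_eq hη hA', hwp, hbp, hg]

end Pool.Agent.Lib.MP_fd6ff4_co.R43
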