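import Mathlib
import Pool.Agent.Lib.MP_fd6ff4_co.R43.T2.Bij

/-!
# T2: the map `HH` on the cone over the complex, second half: carriers and continuity
-/

set_option autoImplicit false

open Finset

namespace Pool.Agent.Lib.MP_fd6ff4_co.R43

variable {W : Finset Word} {Sy : SecSys W} {η : ℝ} {L : Set ((Fin 7 → ℝ) →ₗ[ℝ] ℝ)} {Φ : Fan L}

private theorem bj_bas_inj {i j : Fin 4} (h : bas i = bas j) : i = j := by
  have := congrArg Fin.val h
  simp only [bas] at this
  exact Fin.ext (by omega)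

private theorem bj_mem_fib (k : Fin 7) : k ∈ fib ↔ k.1 < 3 := by
  revert k
  decide

private theorem bj_bas_notMem (i : Fin 4) : bas i ∉ fib := by
  rw [bj_mem_fib]
  simp [bas]

private theorem bj_cases (k : Fin 7) : (∃ j : Fin 3, k = ⟨j.1, by omega⟩) ∨ ∃ i : Fin 4, k = bas i := by
  by_cases h : k.1 < 3
  · exact Or.inl ⟨⟨k.1, h⟩, rfl⟩
  · refine Or.inr ⟨⟨k.1 - 3, by omega⟩, ?_⟩
    ext
    simp only [bas]
    omega

private theorem bj_mem_carr_inl (v : CV) (i : Fin 7) :
    i ∈ carr Sy η Φ (Sum.inl v) ↔ i = bas v.1 ∨ i ∈ fib := by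
  simp only [carr, Finset.mem_insert]

private theorem bj_mem_carr_inr (s : FV Sy η Φ) (i : Fin 7) :
    i ∈ carr Sy η Φ (Sum.inr s) ↔ Φ.P s.1 i ≠ 0 := by
  simp only [carr, Finset.mem_filter, Finset.mem_univ, true_and]

/-- the support of `bpt z` -/
private theorem bj_bpt_ne {z : VV Sy η Φ → ℝ} (hz : ∀ v, 0 ≤ z v) (i : Fin 7) :
    bpt Sy η Φ z i ≠ 0 ↔ ∃ s : FV Sy η Φ, z (Sum.inr s) ≠ 0 ∧ Φ.P s.1 i ≠ 0 := by
  have h0 : ∀ s : FV Sy η Φ, 0 ≤ z (Sum.inr s) * Φ.P s.1 i := fun s =>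
    mul_nonneg (hz _) ((Φ.P_mem s.1).1 i)
  have h1 : bpt Sy η Φ z i = ∑ s : FV Sy η Φ, z (Sum.inr s) * Φ.P s.1 i := by
    simp only [bpt, Finset.sum_apply, Pi.smul_apply, smul_eq_mul]
  rw [h1, ne_eq, Finset.sum_eq_zero_iff_of_nonneg fun s _ => h0 s]
  push Not
  constructor
  · rintro ⟨s, -, hs⟩
    exact ⟨s, left_ne_zero_of_mul hs, right_ne_zero_of_mul hs⟩
  · rintro ⟨s, h2, h3⟩
    exact ⟨s, Finset.mem_univ s, mul_ne_zero h2 h3⟩

/-- the support of `col w` -/
private theorem bj_col_ne {w : CV → ℝ} (hw : ∀ v, 0 ≤ w v) (i : Fin 4) :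
    col w i ≠ 0 ↔ ∃ a, w (i, a) ≠ 0 := by
  rw [col, ne_eq, Finset.sum_eq_zero_iff_of_nonneg fun a _ => hw _]
  push Not
  constructor
  · rintro ⟨a, -, ha⟩
    exact ⟨a, ha⟩
  · rintro ⟨a, ha⟩
    exact ⟨a, Finset.mem_univ a, ha⟩

/-- the support of `HH z` is the union of the carriers -/
theorem HH_car (hη : Small Sy η) (hL : Good Sy η L) {z : VV Sy η Φ → ℝ}
    (hz : z ∈ Cone (cplx Sy η Φ)) (i : Fin 7) :
    HH Sy η Φ z i ≠ 0 ↔ ∃ v, z v ≠ 0 ∧ i ∈ carr Sy η Φ v := by
  have hz0 : ∀ v, 0 ≤ z v := by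
    obtain ⟨G, -, hG⟩ := hz
    exact hG.1
  by_cases hw : wpt Sy η Φ z = 0
  · have h1 : HH Sy η Φ z = bpt Sy η Φ z := by
      unfold HH
      rw [if_pos hw]
    rw [h1, bj_bpt_ne hz0]
    constructor
    · rintro ⟨s, h2, h3⟩
      exact ⟨Sum.inr s, h2, (bj_mem_carr_inr s i).2 h3⟩
    · rintro ⟨v | s, h2, h3⟩
      · exact absurd (congrFun hw v) h2
      · exact ⟨s, h2, (bj_mem_carr_inr s i).1 h3⟩
  · obtain ⟨f, hf⟩ := exists_adm hη hL hz hw
    rw [HH_eq hη hf]
    obtain ⟨v₀, hv₀⟩ := Function.ne_iff.1 hw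
    rcases bj_cases i with ⟨j, rfl⟩ | ⟨c, rfl⟩
    · have h1 := yy_glue_pos hη hf hw j
      have h2 : (⟨j.1, by omega⟩ : Fin 7) ∈ fib := (bj_mem_fib _).2 j.2
      exact ⟨fun _ => ⟨Sum.inl v₀, hv₀, (bj_mem_carr_inl v₀ _).2 (Or.inr h2)⟩, fun _ => h1.ne'⟩
    · have h1 : glue Sy f (wpt Sy η Φ z) (bpt Sy η Φ z) (bas c) =
          bpt Sy η Φ z (bas c) + col (wpt Sy η Φ z) c :=
        congrFun (mc_ll_glue (Sy := Sy) f (wpt Sy η Φ z) (bpt Sy η Φ z)) c
      have h2 : 0 ≤ bpt Sy η Φ z (bas c) := bpt_nonneg hz0 _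
      have h3 : 0 ≤ col (wpt Sy η Φ z) c := mc_col_nonneg hf.nonneg c
      rw [h1, ne_eq, add_eq_zero_iff_of_nonneg h2 h3, not_and_or]
      constructor
      · rintro (h4 | h4)
        · obtain ⟨s, h5, h6⟩ := (bj_bpt_ne hz0 _).1 h4
          exact ⟨Sum.inr s, h5, (bj_mem_carr_inr s _).2 h6⟩
        · obtain ⟨a, ha⟩ := (bj_col_ne hf.nonneg c).1 h4
          exact ⟨Sum.inl (c, a), ha, (bj_mem_carr_inl _ _).2 (Or.inl rfl)⟩
      · rintro ⟨v | s, h5, h6⟩
        · right
          rw [bj_mem_carr_inl] at h6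
          rcases h6 with h6 | h6
          · obtain ⟨c', a⟩ := v
            have h7 : c = c' := bj_bas_inj h6
            subst h7
            exact (bj_col_ne hf.nonneg c).2 ⟨a, h5⟩
          · exact absurd h6 (bj_bas_notMem c)
        · left
          exact (bj_bpt_ne hz0 _).2 ⟨s, h5, (bj_mem_carr_inr s _).1 h6⟩

private theorem bj_cont_bpt : Continuous (bpt Sy η Φ) := by
  unfold bpt
  fun_prop

private theorem bj_cont_wpt : Continuous (wpt Sy η Φ) := by
  unfold wpt
  fun_prop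

private theorem bj_cont_ll : Continuous ll := by
  unfold ll
  fun_prop

private theorem bj_cont_yy : Continuous yy := by
  unfold yy
  fun_prop

private theorem bj_cont_col : Continuous col := by
  unfold col
  fun_prop

private theorem bj_contOn_mk {X : Type*} [TopologicalSpace X] {A : Set X} {a : X → Fin 3 → ℝ}
    {b : X → Fin 4 → ℝ} (ha : ContinuousOn a A) (hb : ContinuousOn b A) :
    ContinuousOn (fun x => mk (a x) (b x)) A := by
  refine continuousOn_pi.2 fun k => ?_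
  by_cases h : k.1 < 3
  · simp only [mk, dif_pos h]
    exact (continuousOn_pi.1 ha) _
  · simp only [mk, dif_neg h]
    exact (continuousOn_pi.1 hb) _

/-- `HH` is continuous on the closed cone of every face: it is the union of the closed sets
`uu f (bpt z) = 0` over the words `f` containing `α`, if `α` is nonempty -/
theorem HH_cont (hη : Small Sy η) (hL : Good Sy η L) {G : Finset (VV Sy η Φ)}
    (hG : G ∈ cplx Sy η Φ) : ContinuousOn (HH Sy η Φ) (cellc G) := by
  classical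
  have hS : ∀ f ∈ W, Sy.S f 0 = 0 := fun f hf => S_zero hf
  have hface := (mem_cplx Sy η Φ G).1 hG
  obtain ⟨f₀, hf₀, hα⟩ := hface.word
  have hb0 : ∀ z ∈ cellc G, 0 ≤ bpt Sy η Φ z := fun z hz => bpt_nonneg hz.1
  have hwα : ∀ z ∈ cellc G, ∀ v, wpt Sy η Φ z v ≠ 0 → v ∈ alp Sy η Φ G := fun z hz v hv =>
    (mem_alp Sy η Φ G v).2 (hz.2 _ hv)
  by_cases hne : (alp Sy η Φ G).Nonempty
  · -- the closed pieces
    let A : W → Set (VV Sy η Φ → ℝ) := fun f => {z | z ∈ cellc G ∧
      (∀ v ∈ alp Sy η Φ G, f.1 v.1 = v.2) ∧ uu Sy η f.1 (bpt Sy η Φ z) = 0}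
    have hSc : ∀ f ∈ W, ContinuousOn (fun z => Sy.S f (ll (bpt Sy η Φ z))) (cellc G) := by
      intro f hf
      refine (continuousOn_S hf).comp (bj_cont_ll.comp bj_cont_bpt).continuousOn fun z hz => ?_
      exact mc_ll_nonneg (hb0 z hz)
    have hScw : ∀ f ∈ W, ContinuousOn
        (fun z => Sy.S f (ll (bpt Sy η Φ z) + col (wpt Sy η Φ z))) (cellc G) := by
      intro f hf
      refine (continuousOn_S hf).comp ((bj_cont_ll.comp bj_cont_bpt).add
        (bj_cont_col.comp bj_cont_wpt)).continuousOn fun z hz => ?_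
      exact add_nonneg (mc_ll_nonneg (hb0 z hz)) (mc_col_nonneg fun v => hz.1 _)
    have huc : ∀ f ∈ W, ContinuousOn (fun z => uu Sy η f (bpt Sy η Φ z)) (cellc G) := by
      intro f hf
      unfold uu
      refine ContinuousOn.sub ?_ ?_
      · have : Continuous fun z : VV Sy η Φ → ℝ => η * tot (ll (bpt Sy η Φ z)) := by
          have h1 := bj_cont_ll.comp (bj_cont_bpt (Sy := Sy) (η := η) (Φ := Φ))
          unfold tot
          exact continuous_const.mul (continuous_finsetSum _ fun i _ => (continuous_apply i).comp h1)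
        exact this.continuousOn
      · exact ((bj_cont_yy.comp bj_cont_bpt).continuousOn.sub (hSc f hf)).norm
    have hA : ∀ f : W, IsClosed (A f) := by
      intro f
      by_cases hf : ∀ v ∈ alp Sy η Φ G, f.1 v.1 = v.2
      · have h1 := (huc f.1 f.2).preimage_isClosed_of_isClosed (isClosed_cellc G)
          (isClosed_singleton (x := (0 : ℝ)))
        have h2 : A f = cellc G ∩ (fun z => uu Sy η f.1 (bpt Sy η Φ z)) ⁻¹' {0} := by
          ext z
          simp only [A, Set.mem_inter_iff, Set.mem_preimage,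
            Set.mem_singleton_iff]
          exact ⟨fun h => ⟨h.1, h.2.2⟩, fun h => ⟨h.1, hf, h.2⟩⟩
        rw [h2]
        exact h1
      · have h2 : A f = ∅ := by
          ext z
          simp only [A, Set.mem_empty_iff_false, iff_false]
          exact fun h => hf h.2.1
        rw [h2]
        exact isClosed_empty
    have hcov : cellc G = ⋃ f : W, A f := by
      ext z
      rw [Set.mem_iUnion]
      constructor
      · intro hz
        obtain ⟨f, hf, h1, h2⟩ := exists_word hη hf₀ hα hne (bpt_mem_LL hL hG hz) hS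
        exact ⟨⟨f, hf⟩, hz, h1, h2⟩
      · rintro ⟨f, hf⟩
        exact hf.1
    have hcont : ∀ f : W, ContinuousOn (HH Sy η Φ) (A f) := by
      intro f
      have hsub : A f ⊆ cellc G := fun z hz => hz.1
      have h1 : ContinuousOn (fun z => glue Sy f.1 (wpt Sy η Φ z) (bpt Sy η Φ z)) (A f) := by
        unfold glue
        refine ContinuousOn.mono ?_ hsub
        refine bj_contOn_mk ?_ ?_
        · exact (bj_cont_yy.comp bj_cont_bpt).continuousOn.add ((hScw f.1 f.2).sub (hSc f.1 f.2))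
        · exact ((bj_cont_ll.comp bj_cont_bpt).add (bj_cont_col.comp bj_cont_wpt)).continuousOn
      refine h1.congr fun z hz => ?_
      obtain ⟨hz1, hz2, hz3⟩ := hz
      by_cases hw : wpt Sy η Φ z = 0
      · have h2 : HH Sy η Φ z = bpt Sy η Φ z := by
          unfold HH
          rw [if_pos hw]
        have h3 : col (0 : CV → ℝ) = 0 := by
          funext i
          simp [col]
        rw [h2]
        change _ = glue Sy f.1 (wpt Sy η Φ z) (bpt Sy η Φ z)
        rw [hw]
        unfold glue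
        rw [h3, add_zero, sub_self, add_zero, mk_eta]
      · have h2 : Adm Sy η f.1 (wpt Sy η Φ z) (bpt Sy η Φ z) := by
          refine ⟨f.2, fun v => hz1.1 _, fun v hv => hz2 v (hwα z hz1 v hv), ?_, hz3⟩
          obtain ⟨h4, h5⟩ := bpt_mem_LL hL hG hz1
          exact ⟨h4, fun v hv => h5 v (hwα z hz1 v (Finset.mem_filter.1 hv).2)⟩
        exact HH_eq hη h2
    rw [hcov]
    exact (locallyFinite_of_finite A).continuousOn_iUnion hA hcont
  · refine (bj_cont_bpt (Sy := Sy) (η := η) (Φ := Φ)).continuousOn.congr fun z hz => ?_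
    have hw : wpt Sy η Φ z = 0 := by
      funext v
      by_contra hv
      exact hne ⟨v, hwα z hz v hv⟩
    unfold HH
    rw [if_pos hw]

end Pool.Agent.Lib.MP_fd6ff4_co.R43
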