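import Mathlib
import Pool.Agent.Lib.MP_fd6ff4_co.R43.T2.Base

/-!
# T2: truncation and the words near a point
-/

set_option autoImplicit false

open Finset

namespace Pool.Agent.Lib.MP_fd6ff4_co.R43

variable {W : Finset Word} {Sy : SecSys W} {η : ℝ}

theorem tr_nonneg {l : Fin 4 → ℝ} (hl : 0 ≤ l) {h : ℝ} (hh : 0 ≤ h) : 0 ≤ tr l h :=
  fun i => le_min (hl i) hh

theorem tr_le (l : Fin 4 → ℝ) (h : ℝ) : tr l h ≤ l := fun _ => min_le_left _ _

/-- `|l /\ h| ≤ 4 h` -/
theorem tot_tr_le (l : Fin 4 → ℝ) (h : ℝ) : tot (tr l h) ≤ 4 * h := by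
  have h1 : tot (tr l h) ≤ ∑ _i : Fin 4, h := Finset.sum_le_sum fun i _ => min_le_right _ _
  simpa using h1

private theorem mida_tot_nonneg {l : Fin 4 → ℝ} (hl : 0 ≤ l) : 0 ≤ tot l :=
  Finset.sum_nonneg fun i _ => hl i

/-- every value between `0` and `tot l` is the total mass of a truncation (intermediate value
theorem on `[0, ∑ l i]`) -/
theorem exists_tr (l : Fin 4 → ℝ) (hl : 0 ≤ l) (t : ℝ) (h0 : 0 ≤ t) (h1 : t ≤ tot l) :
    ∃ h, 0 ≤ h ∧ tot (tr l h) = t := by
  have hc : Continuous fun h => tot (tr l h) := by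
    unfold tot tr
    fun_prop
  have h2 : tot (tr l 0) = 0 := by
    refine Finset.sum_eq_zero fun i _ => ?_
    exact min_eq_right (hl i)
  have h3 : tot (tr l (tot l)) = tot l := by
    refine Finset.sum_congr rfl fun i _ => ?_
    exact min_eq_left (Finset.single_le_sum (fun j _ => hl j) (Finset.mem_univ i))
  have h4 := intermediate_value_Icc (mida_tot_nonneg hl) hc.continuousOn
  rw [h2, h3] at h4
  obtain ⟨h, hh, he⟩ := h4 ⟨h0, h1⟩
  exact ⟨h, hh.1, he⟩

private theorem mida_mono (l : Fin 4 → ℝ) {h h' : ℝ} (hh : h ≤ h') : tr l h ≤ tr l h' :=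
  fun _ => min_le_min_left _ hh

private theorem mida_eq (l : Fin 4 → ℝ) {h h' : ℝ} (hh : h ≤ h')
    (e : tot (tr l h) = tot (tr l h')) : tr l h = tr l h' := by
  have h1 := (Finset.sum_eq_sum_iff_of_le (s := Finset.univ)
    fun i _ => mida_mono l hh i).1 e
  funext i
  exact h1 i (Finset.mem_univ i)

/-- truncations with the same total mass are equal -/
theorem tr_eq_of_tot {l : Fin 4 → ℝ} {h h' : ℝ} (e : tot (tr l h) = tot (tr l h')) :
    tr l h = tr l h' := by
  rcases le_total h h' with hh | hh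
  · exact mida_eq l hh e
  · exact (mida_eq l hh e.symm).symm

/-- if two sheets are close over `l` in the scale of the truncation, the truncation applies to
them: `c * l i ≤ 2 η |l /\ h| ≤ 8 η h` for the differing colours -/
theorem close_words (hη : Small Sy η) {f g : Word} (hf : f ∈ W) (hg : g ∈ W) {l : Fin 4 → ℝ}
    (hl : 0 ≤ l) {h : ℝ} (hh : 0 ≤ h)
    (hc : ‖Sy.S f l - Sy.S g l‖ ≤ 2 * η * tot (tr l h)) :
    (∀ i, f i ≠ g i → l i ≤ h) ∧
      Sy.S f l - Sy.S g l = Sy.S f (tr l h) - Sy.S g (tr l h) := by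
  have h1 := Sy.c_pos
  have h2 := tot_tr_le l h
  have h3 := mida_tot_nonneg (tr_nonneg hl hh)
  have h4 := hη.pos
  have h5 := hη.quarter
  have h6 := hη.trunc
  refine ⟨fun i hi => ?_, Sy.trunc f hf g hg l hl h hh fun i hi => ?_⟩
  · have h7 := (Sy.sep f hf g hg l hl i hi).trans hc
    have h8 : 2 * η * tot (tr l h) ≤ 2 * η * (4 * h) :=
      mul_le_mul_of_nonneg_left h2 (by linarith)
    have h9 : 8 * η * h ≤ Sy.c * h := mul_le_mul_of_nonneg_right h5.le hh
    exact le_of_mul_le_mul_left (by linarith : Sy.c * l i ≤ Sy.c * h) h1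
  · have h7 := (Sy.sep f hf g hg l hl i hi).trans hc
    have h8 : 2 * η * tot (tr l h) ≤ Sy.c * Sy.δ * tot (tr l h) :=
      mul_le_mul_of_nonneg_right h6 h3
    exact le_of_mul_le_mul_left (by linarith : Sy.c * l i ≤ Sy.c * (Sy.δ * tot (tr l h))) h1

/-- the same with the hypothesis at the truncated point: `min (l i) h < h` for the differing
colours, so `min (l i) h = l i` -/
theorem close_words' (hη : Small Sy η) {f g : Word} (hf : f ∈ W) (hg : g ∈ W) {l : Fin 4 → ℝ}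
    (hl : 0 ≤ l) {h : ℝ} (hh : 0 < h)
    (hc : ‖Sy.S f (tr l h) - Sy.S g (tr l h)‖ ≤ 2 * η * tot (tr l h)) :
    (∀ i, f i ≠ g i → l i < h) ∧
      Sy.S f l - Sy.S g l = Sy.S f (tr l h) - Sy.S g (tr l h) := by
  have h1 := Sy.c_pos
  have h2 := tot_tr_le l h
  have hn := tr_nonneg hl hh.le
  have h3 := mida_tot_nonneg hn
  have h4 := hη.pos
  have h5 := hη.quarter
  have h6 := hη.trunc
  have key : ∀ i, f i ≠ g i → l i < h := by
    intro i hi
    have h7 : Sy.c * min (l i) h ≤ 2 * η * tot (tr l h) := (Sy.sep f hf g hg _ hn i hi).trans hc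
    have h8 : 2 * η * tot (tr l h) ≤ 2 * η * (4 * h) :=
      mul_le_mul_of_nonneg_left h2 (by linarith)
    have h9 : 8 * η * h < Sy.c * h := mul_lt_mul_of_pos_right h5 hh
    have h10 : min (l i) h < h :=
      lt_of_mul_lt_mul_left (by linarith : Sy.c * min (l i) h < Sy.c * h) h1.le
    rcases min_lt_iff.1 h10 with h11 | h11
    · exact h11
    · exact absurd h11 (lt_irrefl _)
  refine ⟨key, Sy.trunc f hf g hg l hl h hh.le fun i hi => ?_⟩
  have h7 : Sy.c * min (l i) h ≤ 2 * η * tot (tr l h) := (Sy.sep f hf g hg _ hn i hi).trans hc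
  rw [min_eq_left (key i hi).le] at h7
  have h8 : 2 * η * tot (tr l h) ≤ Sy.c * Sy.δ * tot (tr l h) :=
    mul_le_mul_of_nonneg_right h6 h3
  exact le_of_mul_le_mul_left (by linarith : Sy.c * l i ≤ Sy.c * (Sy.δ * tot (tr l h))) h1

/-- two sheets which are both close to `q` differ only at colours with `ll q i` smaller than the
maximum -/
theorem lt_of_close (hη : Small Sy η) {f g : Word} (hf : f ∈ W) (hg : g ∈ W) {q : Fin 7 → ℝ}
    (hq : 0 ≤ q) (h0 : ll q ≠ 0) (h1 : 0 ≤ uu Sy η f q) (h2 : 0 ≤ uu Sy η g q) {i : Fin 4}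
    (hi : f i ≠ g i) : ∃ j, ll q i < ll q j := by
  by_contra hcon
  push Not at hcon
  have hl : 0 ≤ ll q := fun j => hq (bas j)
  have h3 : 0 < ll q i := by
    rcases (hl i).lt_or_eq with h | h
    · exact h
    · exfalso
      apply h0
      funext j
      exact le_antisymm ((hcon j).trans h.symm.le) (hl j)
  have h4 := Sy.sep f hf g hg _ hl i hi
  have h5 : ‖Sy.S f (ll q) - Sy.S g (ll q)‖ ≤
      ‖yy q - Sy.S f (ll q)‖ + ‖yy q - Sy.S g (ll q)‖ := by
    have e : Sy.S f (ll q) - Sy.S g (ll q) =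
        (yy q - Sy.S g (ll q)) - (yy q - Sy.S f (ll q)) := by abel
    rw [e, add_comm]
    exact norm_sub_le _ _
  have h6 : tot (ll q) ≤ 4 * ll q i := by
    have h7 : tot (ll q) ≤ ∑ _j : Fin 4, ll q i := Finset.sum_le_sum fun j _ => hcon j
    simpa using h7
  unfold uu at h1 h2
  have h7 := hη.pos
  have h8 : η * tot (ll q) ≤ η * (4 * ll q i) := mul_le_mul_of_nonneg_left h6 h7.le
  have h9 : 8 * η * ll q i < Sy.c * ll q i := mul_lt_mul_of_pos_right hη.quarter h3
  linarith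

/-- (V) for `q` in `LL α`, `α` contained in some word of `W`, there is a word `f` containing `α`
with `u f q = 0` (for `q = 0` take `f₀`; otherwise any word close to `q` contains `α` by
`lt_of_close`) -/
theorem exists_word (hη : Small Sy η) {α : Finset CV} {f₀ : Word} (hf₀ : f₀ ∈ W)
    (hα : ∀ v ∈ α, f₀ v.1 = v.2) (hne : α.Nonempty) {q : Fin 7 → ℝ} (hq : q ∈ LL Sy η α)
    (hS : ∀ f ∈ W, Sy.S f 0 = 0) :
    ∃ f ∈ W, (∀ v ∈ α, f v.1 = v.2) ∧ uu Sy η f q = 0 := by
  obtain ⟨hC, hL⟩ := hq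
  obtain ⟨v, hv⟩ := hne
  obtain ⟨-, f, hf, hfv, hu⟩ := hL v hv
  by_cases h0 : ll q = 0
  · refine ⟨f₀, hf₀, hα, ?_⟩
    unfold uu at hu ⊢
    rw [h0, hS f hf] at hu
    rw [h0, hS f₀ hf₀]
    have h1 : tot 0 = 0 := by simp [tot]
    rw [h1] at hu ⊢
    have h2 := norm_nonneg (yy q - 0)
    linarith
  · refine ⟨f, hf, fun w hw => ?_, le_antisymm (hC.2 f hf) hu⟩
    obtain ⟨hm, g, hg, hgw, hu'⟩ := hL w hw
    by_contra hne
    obtain ⟨j, hj⟩ := lt_of_close hη hf hg hC.1 h0 hu hu' (i := w.1) (by rwa [hgw])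
    exact absurd hj (not_lt.2 (hm j))

end Pool.Agent.Lib.MP_fd6ff4_co.R43
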