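import Mathlib
import Pool.Agent.Lib.MP_fd6ff4_co.R43.T2.MidA
import Pool.Agent.Lib.MP_fd6ff4_co.R43.T2.Fan7
import Pool.Agent.Lib.MP_fd6ff4_co.R43.T2.Good

/-!
# T2: the dimension of the faces

For a face `G` with `α = alp G` and `ρ = rho G` the number of vertices is at most the number of
elements of the carrier. PROOF. The vertices of `ρ` are linearly independent (`Fan.linInd`). Let
`α` and `ρ` be nonempty, `z₀ = ∑ s ∈ ρ, P s ∈ LL α`, `f` a word containing `α` with `uu f z₀ = 0`
(`exists_word`), `j` and `B` as in `Good.piece`. All the `P s`, `s ∈ ρ`, are in the closed cell of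
`z₀` (`sgnLe_face`), so they lie in the subspace of the `x` with support in the carrier, with
`yy x j = B (ll x)` and `ll x i = ll x i'` for the colours `i, i'` of `α`. The restriction to the
coordinates in the carrier except `j` and all but one of the colours of `α` is injective on this
subspace.
-/

set_option autoImplicit false

open Finset

namespace Pool.Agent.Lib.MP_fd6ff4_co.R43

theorem dim_card_le_of_restr {n : ℕ} {F : Finset (Fin n)} {P : Fin n → Fin 7 → ℝ}
    (hli : LinearIndependent ℝ fun v : F => P v.1) (E : Submodule ℝ (Fin 7 → ℝ))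
    (hE : ∀ s ∈ F, P s ∈ E) (T : Finset (Fin 7))
    (hT : ∀ x ∈ E, (∀ t ∈ T, x t = 0) → x = 0) : #F ≤ #T := by
  set r : E →ₗ[ℝ] (T → ℝ) := (LinearMap.pi fun t : T => LinearMap.proj t.1) ∘ₗ E.subtype with hr
  have hinj : Function.Injective r := by
    rw [injective_iff_map_eq_zero]
    rintro ⟨x, hx⟩ h
    have : x = 0 := hT x hx fun t ht => congrFun h ⟨t, ht⟩
    exact Subtype.ext this
  have h1 : Module.finrank ℝ E ≤ #T := by
    have := LinearMap.finrank_le_finrank_of_injective hinj
    simpa using this
  have h2 : LinearIndependent ℝ fun v : F => (⟨P v.1, hE v.1 v.2⟩ : E) :=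
    LinearIndependent.of_comp E.subtype hli
  have h3 := h2.fintype_card_le_finrank
  simp only [Fintype.card_coe] at h3
  omega

variable {W : Finset Word} {Sy : SecSys W} {η : ℝ} {L : Set ((Fin 7 → ℝ) →ₗ[ℝ] ℝ)} {Φ : Fan L}

theorem dim_card_face (G : Finset (VV Sy η Φ)) : #G = #(alp Sy η Φ G) + #(rho Sy η Φ G) := by
  have e1 : alp Sy η Φ G = G.toLeft := by
    ext v
    rw [mem_alp, Finset.mem_toLeft]
  have e2 : rho Sy η Φ G = G.toRight.map ⟨Subtype.val, Subtype.val_injective⟩ := by
    ext s
    rw [mem_rho, Finset.mem_map]
    constructor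
    · rintro ⟨h, hs⟩
      exact ⟨⟨s, h⟩, Finset.mem_toRight.2 hs, rfl⟩
    · rintro ⟨⟨a, ha⟩, hs, rfl⟩
      exact ⟨ha, Finset.mem_toRight.1 hs⟩
  rw [e1, e2, Finset.card_map, Finset.card_toLeft_add_card_toRight]

theorem dim_alp_inj {f : Word} {α : Finset CV} (h : ∀ v ∈ α, f v.1 = v.2) :
    Set.InjOn (fun v : CV => bas v.1) (α : Set CV) := by
  intro v hv w hw e
  have e1 : v.1 = w.1 := by
    have := congrArg Fin.val e
    simp only [bas] at this
    exact Fin.ext (by omega)
  exact Prod.ext e1 (by rw [← h v hv, ← h w hw, e1])

theorem card_le_car (hη : Small Sy η) (hL : Good Sy η L) {G : Finset (VV Sy η Φ)}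
    (hG : G ∈ cplx Sy η Φ) : #G ≤ #(G.biUnion (carr Sy η Φ)) := by
  classical
  obtain ⟨⟨f₀, hf₀, hf₀α⟩, hface, hmem⟩ := (mem_cplx Sy η Φ G).1 hG
  rw [dim_card_face G]
  set C := G.biUnion (carr Sy η Φ) with hC
  have hα : ∀ v ∈ alp Sy η Φ G, insert (bas v.1) fib ⊆ C := fun v hv =>
    Finset.subset_biUnion_of_mem (carr Sy η Φ) ((mem_alp Sy η Φ G v).1 hv)
  have hρ : ∀ s ∈ rho Sy η Φ G, ∀ i, i ∉ C → Φ.P s i = 0 := by
    intro s hs i hi
    obtain ⟨h, hs'⟩ := (mem_rho Sy η Φ G s).1 hs
    by_contra hne
    exact hi (Finset.mem_biUnion.2 ⟨_, hs', Finset.mem_filter.2 ⟨mem_univ _, hne⟩⟩)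
  have hli := Φ.linInd hface
  generalize hα' : alp Sy η Φ G = α at *
  generalize hρ' : rho Sy η Φ G = ρ at *
  rcases α.eq_empty_or_nonempty with hα0 | hα0
  · -- no coarse vertices
    subst hα0
    have := dim_card_le_of_restr hli
      { carrier := {x | ∀ i, i ∉ C → x i = 0}
        add_mem' := by
          intro x y hx hy i hi
          simp [hx i hi, hy i hi]
        zero_mem' := by
          intro i _
          rfl
        smul_mem' := by
          intro c x hx i hi
          simp [hx i hi] } hρ C (fun x hx h => by
            funext i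
            by_cases hi : i ∈ C
            · exact h i hi
            · exact hx i hi)
    simpa using this
  · rcases ρ.eq_empty_or_nonempty with hρ0 | hρ0
    · subst hρ0
      rw [card_empty, add_zero]
      refine Finset.card_le_card_of_injOn (fun v : CV => bas v.1) ?_ (dim_alp_inj hf₀α)
      intro v hv
      exact hα v hv (mem_insert_self _ _)
    · obtain ⟨f, hf, hfα, hu⟩ := exists_word hη hf₀ hf₀α hα0 hmem fun f hf => S_zero hf
      have hz0 : (0 : Fin 7 → ℝ) ≤ ∑ s ∈ ρ, Φ.P s := hmem.1.1
      obtain ⟨j, B, hB⟩ := hL.piece f hf _ hz0 hu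
      have hP0 : ∀ s, (0 : Fin 7 → ℝ) ≤ Φ.P s := fun s i => (Φ.P_mem s).1 i
      have hsg : ∀ s ∈ ρ, SgnLe L (Φ.P s) (∑ s ∈ ρ, Φ.P s) := by
        intro s hs
        have := sgnLe_face (Φ := Φ) hface (c := fun _ => 1) (c' := fun t => if t = s then 1 else 0)
          (fun _ _ => one_pos) (fun t _ => by positivity)
        simpa [Finset.sum_ite_eq', hs] using this
      obtain ⟨v₀, hv₀⟩ := hα0
      set R : Finset (Fin 7) := insert ⟨j.1, by omega⟩ ((α.erase v₀).image fun v => bas v.1) with hR
      have hbas : ∀ v : CV, bas v.1 ≠ ⟨j.1, by omega⟩ := by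
        intro v e
        have := congrArg Fin.val e
        simp only [bas] at this
        have := j.2
        omega
      have hRC : R ⊆ C := by
        intro i hi
        rcases Finset.mem_insert.1 hi with rfl | hi
        · refine hα v₀ hv₀ (mem_insert_of_mem ?_)
          fin_cases j <;> decide
        · obtain ⟨v, hv, rfl⟩ := Finset.mem_image.1 hi
          exact hα v (Finset.mem_of_mem_erase hv) (mem_insert_self _ _)
      have hRcard : #R = #α := by
        rw [hR, Finset.card_insert_of_notMem, Finset.card_image_of_injOn, Finset.card_erase_of_mem hv₀]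
        · have := Finset.card_pos.2 ⟨v₀, hv₀⟩
          omega
        · exact (dim_alp_inj hf₀α).mono (by
            intro v hv
            exact Finset.mem_of_mem_erase hv)
        · intro h
          obtain ⟨v, _, hv⟩ := Finset.mem_image.1 h
          exact hbas v hv
      have key := dim_card_le_of_restr hli
        { carrier := {x | (∀ i, i ∉ C → x i = 0) ∧ yy x j = B (ll x) ∧
            ∀ v ∈ α, ll x v.1 = ll x v₀.1}
          add_mem' := by
            rintro x y ⟨hx1, hx2, hx3⟩ ⟨hy1, hy2, hy3⟩
            refine ⟨fun i hi => by simp [hx1 i hi, hy1 i hi], ?_, fun v hv => ?_⟩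
            · have e : ll (x + y) = ll x + ll y := rfl
              have e' : yy (x + y) j = yy x j + yy y j := rfl
              rw [e, e', map_add, hx2, hy2]
            · have e : ∀ i, ll (x + y) i = ll x i + ll y i := fun _ => rfl
              rw [e, e, hx3 v hv, hy3 v hv]
          zero_mem' := by
            refine ⟨fun i _ => rfl, ?_, fun v _ => rfl⟩
            have e : ll (0 : Fin 7 → ℝ) = 0 := rfl
            rw [e, map_zero]
            rfl
          smul_mem' := by
            rintro c x ⟨hx1, hx2, hx3⟩
            refine ⟨fun i hi => by simp [hx1 i hi], ?_, fun v hv => ?_⟩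
            · have e : ll (c • x) = c • ll x := rfl
              have e' : yy (c • x) j = c • yy x j := rfl
              rw [e, e', map_smul, hx2]
            · have e : ∀ i, ll (c • x) i = c • ll x i := fun _ => rfl
              rw [e, e, hx3 v hv] }
        (fun s hs => ⟨hρ s hs, hB _ (hP0 s) (hsg s hs), fun v hv => by
          have hs' := LL_of_sgnLe hL (hP0 s) (hsg s hs) hmem
          exact le_antisymm ((hs'.2 v₀ hv₀).1 v.1) ((hs'.2 v hv).1 v₀.1)⟩) (C \ R) (by
          rintro x ⟨hx1, hx2, hx3⟩ h
          have h0 : ll x v₀.1 = 0 := by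
            refine h (bas v₀.1) (Finset.mem_sdiff.2 ⟨hα v₀ hv₀ (mem_insert_self _ _), ?_⟩)
            intro hR'
            rcases Finset.mem_insert.1 hR' with e | e
            · exact hbas v₀ e
            · obtain ⟨v, hv, e⟩ := Finset.mem_image.1 e
              exact (Finset.mem_erase.1 hv).1
                (dim_alp_inj hf₀α (Finset.mem_of_mem_erase hv) hv₀ e)
          have hl : ll x = 0 := by
            funext i
            by_cases hi : ∃ v ∈ α, v.1 = i
            · obtain ⟨v, hv, rfl⟩ := hi
              rw [hx3 v hv, h0]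
              rfl
            · by_cases hiC : bas i ∈ C
              · refine h (bas i) (Finset.mem_sdiff.2 ⟨hiC, ?_⟩)
                intro hR'
                rcases Finset.mem_insert.1 hR' with e | e
                · exact hbas (i, 0) e
                · obtain ⟨v, hv, e⟩ := Finset.mem_image.1 e
                  refine hi ⟨v, Finset.mem_of_mem_erase hv, ?_⟩
                  have := congrArg Fin.val e
                  simp only [bas] at this
                  exact Fin.ext (by omega)
              · exact hx1 _ hiC
          have hy : yy x j = 0 := by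
            rw [hx2, hl, map_zero]
          rw [← mk_eta x, hl]
          funext k
          by_cases hk : k.1 < 3
          · simp only [mk, hk, dif_pos, Pi.zero_apply]
            by_cases hkj : k.1 = j.1
            · have : (⟨k.1, hk⟩ : Fin 3) = j := Fin.ext hkj
              rw [this]
              exact hy
            · by_cases hkC : k ∈ C
              · refine h k (Finset.mem_sdiff.2 ⟨hkC, ?_⟩)
                intro hR'
                rcases Finset.mem_insert.1 hR' with e | e
                · exact hkj (congrArg Fin.val e)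
                · obtain ⟨v, hv, e⟩ := Finset.mem_image.1 e
                  have := congrArg Fin.val e
                  simp only [bas] at this
                  omega
              · exact hx1 k hkC
          · simp [mk, hk])
      rw [Finset.card_sdiff_of_subset hRC, hRcard] at key
      have := Finset.card_le_card hRC
      omega

end Pool.Agent.Lib.MP_fd6ff4_co.R43
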