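import Mathlib
import Pool.Agent.Lib.MP_fd6ff4_co.R43.T2.BijB
import Pool.Agent.Lib.MP_fd6ff4_co.R43.T2.Asm
import Pool.Agent.Lib.MP_fd6ff4_co.R43.T2.Dim

/-!
# T2: the topological triangulation given by a section system
-/

set_option autoImplicit false

open Finset

namespace Pool.Agent.Lib.MP_fd6ff4_co.R43

theorem exists_word_coarse (i : Fin 4) (a : Fin 3) : ∃ f ∈ words, f i = a := by
  revert i a
  decide

variable {W : Finset Word} {Sy : SecSys W} {η : ℝ} {L : Set ((Fin 7 → ℝ) →ₗ[ℝ] ℝ)} {Φ : Fan L}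

theorem yy_zero : yy 0 = 0 := rfl

theorem ll_zero : ll 0 = 0 := rfl

theorem uu_zero {f : Word} (hf : f ∈ W) : uu Sy η f 0 = 0 := by
  simp [uu, yy_zero, ll_zero, S_zero hf, tot]

theorem zero_mem_LL {α : Finset CV} {f : Word} (hf : f ∈ W) (h : ∀ v ∈ α, f v.1 = v.2) :
    (0 : Fin 7 → ℝ) ∈ LL Sy η α := by
  refine ⟨⟨le_rfl, fun g hg => (uu_zero hg).le⟩, fun v hv => ⟨fun j => ?_, f, hf, h v hv,
    (uu_zero hf).ge⟩⟩
  simp [ll_zero]

/-- faces without fan vertices -/
theorem coarse_mem {G : Finset (VV Sy η Φ)} {f : Word} (hf : f ∈ W)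
    (h1 : ∀ v ∈ alp Sy η Φ G, f v.1 = v.2) (h2 : ∀ s, Sum.inr s ∉ G) : G ∈ cplx Sy η Φ := by
  have hr : rho Sy η Φ G = ∅ := by
    ext s
    rw [mem_rho]
    simp only [h2, exists_false, Finset.notMem_empty]
  rw [mem_cplx]
  refine ⟨⟨f, hf, h1⟩, ?_, ?_⟩
  · rw [hr]
    exact Φ.empty_mem
  · rw [hr, Finset.sum_empty]
    exact zero_mem_LL hf h1

theorem single_inr_mem {f : Word} (hf : f ∈ W) (s : FV Sy η Φ) :
    {(Sum.inr s : VV Sy η Φ)} ∈ cplx Sy η Φ := by
  have ha : alp Sy η Φ {(Sum.inr s : VV Sy η Φ)} = ∅ := by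
    ext v
    rw [mem_alp]
    simp
  have hr : rho Sy η Φ {(Sum.inr s : VV Sy η Φ)} = {s.1} := by
    ext t
    rw [mem_rho, Finset.mem_singleton]
    constructor
    · rintro ⟨h, h'⟩
      rw [Finset.mem_singleton] at h'
      have := Sum.inr_injective h'
      exact congrArg Subtype.val this
    · rintro rfl
      exact ⟨s.2, by simp⟩
  rw [mem_cplx]
  refine ⟨⟨f, hf, ?_⟩, ?_, ?_⟩
  · rw [ha]
    simp
  · rw [hr]
    exact Φ.vertex _
  · rw [hr, ha, Finset.sum_singleton]
    exact ⟨s.2, by simp⟩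

/-- T2: a section system for the 43 words gives the triangulation -/
theorem tri_of_secSys (Sy : SecSys words) : ∃ (n : ℕ) (Γ : Finset (Finset (Fin n)))
    (σ : Fin n → Finset (Fin 7)) (v : Fin 4 → Fin 3 → Fin n),
    TopTri Γ σ ∧ HasR43 Γ σ v ∧ ∀ G ∈ Γ, #G ≤ #(car σ G) := by
  classical
  obtain ⟨η, hη⟩ := exists_small Sy
  obtain ⟨L, hL⟩ := exists_good Sy η
  obtain ⟨Φ⟩ := exists_fan L hL.fin
  have hW : words.Nonempty := by
    rw [← Finset.card_pos, card_words]
    norm_num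
  obtain ⟨f₀, hf₀⟩ := hW
  set e : VV Sy η Φ ≃ Fin (Fintype.card (VV Sy η Φ)) := Fintype.equivFin _ with he
  refine ⟨Fintype.card (VV Sy η Φ), (cplx Sy η Φ).map e.finsetCongr.toEmbedding,
    fun j => carr Sy η Φ (e.symm j), fun i a => e (Sum.inl (i, a)), ?_, ?_, ?_⟩
  · refine topTri_of_cone (cplx Sy η Φ) (carr Sy η Φ) ?_ ?_ ?_ ?_ (HH Sy η Φ) ?_ ?_ ?_ ?_ ?_ ?_ e
    · exact coarse_mem hf₀ (fun v hv => by rw [mem_alp] at hv; simp at hv) (by simp)
    · exact fun F hF G hG => cplx_down hL hF hG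
    · rintro (v | s)
      · obtain ⟨f, hf, hv⟩ := exists_word_coarse v.1 v.2
        refine coarse_mem hf (fun u hu => ?_) (by simp)
        rw [mem_alp, Finset.mem_singleton] at hu
        rw [Sum.inl_injective hu]
        exact hv
      · exact single_inr_mem hf₀ s
    · rintro (v | s)
      · exact ⟨bas v.1, Finset.mem_insert_self _ _⟩
      · by_contra hc
        rw [Finset.not_nonempty_iff_eq_empty] at hc
        have h0 : ∀ i, Φ.P s.1 i = 0 := by
          intro i
          by_contra hi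
          have : i ∈ carr Sy η Φ (Sum.inr s) := by
            simp [carr, hi]
          rw [hc] at this
          exact Finset.notMem_empty _ this
        have h1 := (Φ.P_mem s.1).2
        simp [h0] at h1
    · exact fun G hG => HH_cont hη hL hG
    · exact fun z hz c hc => HH_smul hη hL hz hc
    · exact fun z hz => HH_nonneg hη hL hz
    · exact HH_inj hη hL
    · exact fun x hx => HH_surj hη hL ⟨f₀, hf₀⟩ hx
    · exact fun z hz i => HH_car hη hL hz i
  · refine ⟨?_, ?_, ?_⟩
    · intro i l i' l' h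
      have := Sum.inl_injective (e.injective h)
      rw [Prod.mk.injEq] at this
      exact this
    · intro i l
      simp [carr]
    · intro w hw
      have hG : (univ.image fun i => (Sum.inl (i, w i) : VV Sy η Φ)) ∈ cplx Sy η Φ := by
        refine coarse_mem hw (fun v hv => ?_) (by simp)
        rw [mem_alp, Finset.mem_image] at hv
        obtain ⟨i, -, hi⟩ := hv
        have := Sum.inl_injective hi
        rw [← this]
      refine Finset.mem_map.mpr ⟨_, hG, ?_⟩
      simp only [Equiv.coe_toEmbedding, Equiv.finsetCongr_apply]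
      ext j
      simp only [Finset.mem_map, Finset.mem_image, Finset.mem_univ, true_and, Equiv.coe_toEmbedding]
      constructor
      · rintro ⟨u, ⟨i, rfl⟩, rfl⟩
        exact ⟨i, rfl⟩
      · rintro ⟨i, rfl⟩
        exact ⟨_, ⟨i, rfl⟩, rfl⟩
  · intro G hG
    obtain ⟨G', hG', rfl⟩ := Finset.mem_map.mp hG
    simp only [Equiv.coe_toEmbedding, Equiv.finsetCongr_apply, Finset.card_map]
    have h := card_le_car hη hL hG'
    refine h.trans (le_of_eq ?_)
    congr 1
    ext i
    simp only [car, Finset.mem_biUnion, Finset.mem_map, Equiv.coe_toEmbedding]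
    constructor
    · rintro ⟨u, hu, hi⟩
      exact ⟨e u, ⟨u, hu, rfl⟩, by simpa using hi⟩
    · rintro ⟨j, ⟨u, hu, rfl⟩, hi⟩
      exact ⟨u, hu, by simpa using hi⟩

end Pool.Agent.Lib.MP_fd6ff4_co.R43
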