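import Mathlib
import Pool.Agent.Lib.MP_fd6ff4_co.R43.T1.ToSys
import Pool.Agent.Lib.MP_fd6ff4_co.R43.T2.Main2

/-!
# T1 + T2
-/

set_option autoImplicit false

open Finset

namespace Pool.Agent.Lib.MP_fd6ff4_co.R43

/-- T1 and T2: the triangulation which contains the rainbow complex -/
theorem exists_tri_aux : ∃ (n : ℕ) (Γ : Finset (Finset (Fin n)))
    (σ : Fin n → Finset (Fin 7)) (v : Fin 4 → Fin 3 → Fin n),
    TopTri Γ σ ∧ HasR43 Γ σ v ∧ ∀ G ∈ Γ, #G ≤ #(car σ G) := by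
  obtain ⟨Sy⟩ := exists_secSys
  exact tri_of_secSys Sy

end Pool.Agent.Lib.MP_fd6ff4_co.R43
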