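import Mathlib
import Pool.Agent.Lib.MP_fd6ff4_co.R43.T2.MidA

/-!
# T2: the explicit map, first facts (parts (D), (H) of h63_R43_T2.md)

`h = max (ll q)` and `tr (ll q + col w) h = ll q` for an admissible triple with `w ≠ 0`: the colours of
the support of `w` have `ll q i = h`, and `w = 0` at the other colours.
-/

set_option autoImplicit false

open Finset

namespace Pool.Agent.Lib.MP_fd6ff4_co.R43

variable {W : Finset Word} {Sy : SecSys W} {η : ℝ}

theorem mb_mem_spw {w : CV → ℝ} {v : CV} : v ∈ spw w ↔ w v ≠ 0 := by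
  classical
  simp [spw]

theorem mb_col_nonneg {w : CV → ℝ} (hw : ∀ v, 0 ≤ w v) (i : Fin 4) : 0 ≤ col w i :=
  Finset.sum_nonneg fun a _ => hw (i, a)

theorem mb_ll_nonneg {q : Fin 7 → ℝ} (hq : 0 ≤ q) : 0 ≤ ll q := fun i => hq (bas i)

theorem mb_yy_nonneg {q : Fin 7 → ℝ} (hq : 0 ≤ q) : 0 ≤ yy q := fun j => hq _

theorem mb_mk_nonneg {y : Fin 3 → ℝ} {l : Fin 4 → ℝ} (hy : 0 ≤ y) (hl : 0 ≤ l) : 0 ≤ mk y l := by
  intro k
  by_cases h : k.1 < 3
  · simp only [mk, h, dif_pos]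
    exact hy _
  · simp only [mk, h, dif_neg, not_false_eq_true]
    exact hl _

theorem mb_tot_nonneg {l : Fin 4 → ℝ} (hl : 0 ≤ l) : 0 ≤ tot l := Finset.sum_nonneg fun i _ => hl i

theorem mb_tot_add (l l' : Fin 4 → ℝ) : tot (l + l') = tot l + tot l' := by
  simp only [tot, Pi.add_apply, Finset.sum_add_distrib]

theorem Adm.mb_nonneg_q {f : Word} {w : CV → ℝ} {q : Fin 7 → ℝ} (h : Adm Sy η f w q) : 0 ≤ q :=
  h.q_mem.1.1

theorem Adm.mb_tot_pos {f : Word} {w : CV → ℝ} {q : Fin 7 → ℝ} (h : Adm Sy η f w q) (hw : w ≠ 0) :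
    0 < tot (col w) := by
  obtain ⟨v, hv⟩ := Function.ne_iff.1 hw
  have h1 : 0 < w v := lt_of_le_of_ne (h.nonneg v) (Ne.symm hv)
  have h2 : w v ≤ col w v.1 :=
    Finset.single_le_sum (f := fun a => w (v.1, a)) (fun a _ => h.nonneg (v.1, a))
      (Finset.mem_univ v.2)
  have h3 : col w v.1 ≤ tot (col w) :=
    Finset.single_le_sum (f := fun i => col w i) (fun i _ => mb_col_nonneg h.nonneg i)
      (Finset.mem_univ v.1)
  linarith

/-- the distance to the sheet -/
theorem Adm.mb_norm_eq {f : Word} {w : CV → ℝ} {q : Fin 7 → ℝ} (h : Adm Sy η f w q) :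
    ‖yy q - Sy.S f (ll q)‖ = η * tot (ll q) := by
  have := h.q_eq
  unfold uu at this
  linarith

/-- the truncation of `l = ll q + col w` at the height `h = max (ll q)` is `ll q`; `h > 0` if
`ll q ≠ 0` -/
theorem Adm.exists_h {f : Word} {w : CV → ℝ} {q : Fin 7 → ℝ} (h : Adm Sy η f w q) (hw : w ≠ 0) :
    ∃ t, 0 ≤ t ∧ tr (ll q + col w) t = ll q ∧ (ll q ≠ 0 → 0 < t) ∧
      ∀ i, col w i ≠ 0 → ll q i = t := by
  obtain ⟨v, hv⟩ := Function.ne_iff.1 hw
  have hl := mb_ll_nonneg h.mb_nonneg_q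
  have hmax : ∀ u, w u ≠ 0 → ∀ j, ll q j ≤ ll q u.1 := fun u hu => (h.q_mem.2 u (mb_mem_spw.2 hu)).1
  have hcol : ∀ i, col w i ≠ 0 → ll q i = ll q v.1 := by
    intro i hi
    obtain ⟨a, -, ha⟩ := Finset.exists_ne_zero_of_sum_ne_zero hi
    exact le_antisymm (hmax v hv i) (hmax (i, a) ha v.1)
  refine ⟨ll q v.1, hl v.1, ?_, ?_, hcol⟩
  · funext i
    show min (ll q i + col w i) (ll q v.1) = ll q i
    by_cases hi : col w i = 0
    · rw [hi, add_zero]
      exact min_eq_left (hmax v hv i)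
    · have h1 := mb_col_nonneg h.nonneg i
      rw [hcol i hi]
      exact min_eq_right (by linarith)
  · intro h0
    refine lt_of_le_of_ne (hl v.1) fun h1 => h0 ?_
    funext j
    exact le_antisymm (by rw [Pi.zero_apply, h1]; exact hmax v hv j) (hl j)

theorem mb_tr_zero {l : Fin 4 → ℝ} (hl : 0 ≤ l) : tr l 0 = 0 := by
  funext i
  exact min_eq_right (hl i)

/-- (D) `HH` does not depend on the word -/
theorem glue_eq (hη : Small Sy η) (hS : ∀ f ∈ W, Sy.S f 0 = 0) {f g : Word} {w : CV → ℝ}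
    {q : Fin 7 → ℝ} (h : Adm Sy η f w q) (h' : Adm Sy η g w q) :
    glue Sy f w q = glue Sy g w q := by
  have hl := mb_ll_nonneg h.mb_nonneg_q
  have hl2 : 0 ≤ ll q + col w := add_nonneg hl (fun i => mb_col_nonneg h.nonneg i)
  have key : Sy.S f (ll q + col w) - Sy.S g (ll q + col w) =
      Sy.S f (ll q) - Sy.S g (ll q) := by
    by_cases hw : w = 0
    · have : col w = 0 := by
        rw [hw]
        funext i
        simp [col]
      rw [this, add_zero]
    by_cases h0 : ll q = 0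
    · have h1 := Sy.trunc f h.mem g h'.mem _ hl2 0 le_rfl (by
        intro i hi
        have : col w i = 0 := by
          refine Finset.sum_eq_zero fun a _ => ?_
          by_contra ha
          exact hi ((h.inw (i, a) ha).trans (h'.inw (i, a) ha).symm)
        rw [mb_tr_zero hl2, h0]
        simp [this, tot])
      rw [mb_tr_zero hl2] at h1
      rw [h1, h0]
    · obtain ⟨t, -, ht1, ht2, -⟩ := h.exists_h hw
      have hn : ‖Sy.S f (ll q) - Sy.S g (ll q)‖ ≤ 2 * η * tot (ll q) := by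
        have e : Sy.S f (ll q) - Sy.S g (ll q) =
            (yy q - Sy.S g (ll q)) - (yy q - Sy.S f (ll q)) := by abel
        rw [e]
        have := norm_sub_le (yy q - Sy.S g (ll q)) (yy q - Sy.S f (ll q))
        rw [h.mb_norm_eq, h'.mb_norm_eq] at this
        linarith
      have h3 := (close_words' hη h.mem h'.mem hl2 (ht2 h0) (by rw [ht1]; exact hn)).2
      rw [ht1] at h3
      exact h3
  unfold glue
  congr 1
  rw [add_right_inj]
  have e1 : Sy.S f (ll q + col w) - Sy.S f (ll q) - (Sy.S g (ll q + col w) - Sy.S g (ll q)) =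
      (Sy.S f (ll q + col w) - Sy.S g (ll q + col w)) - (Sy.S f (ll q) - Sy.S g (ll q)) := by
    abel
  rw [← sub_eq_zero, e1, key, sub_self]

/-- The fibre part of `HH` from below. -/
theorem mb_yy_glue_ge {f : Word} {w : CV → ℝ} {q : Fin 7 → ℝ}
    (h : Adm Sy η f w q) (j : Fin 3) :
    Sy.κ * tot (ll q + col w) - η * tot (ll q) ≤ yy (glue Sy f w q) j := by
  have hl := mb_ll_nonneg h.mb_nonneg_q
  have hl2 : 0 ≤ ll q + col w := add_nonneg hl (fun i => mb_col_nonneg h.nonneg i)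
  have h1 := Sy.pos f h.mem _ hl2 j
  have h2 : |yy q j - Sy.S f (ll q) j| ≤ η * tot (ll q) := by
    rw [← h.mb_norm_eq]
    exact norm_le_pi_norm (yy q - Sy.S f (ll q)) j
  have h3 := (abs_le.1 h2).1
  unfold glue
  rw [yy_mk]
  simp only [Pi.add_apply, Pi.sub_apply]
  linarith

theorem glue_nonneg (hη : Small Sy η) {f : Word} {w : CV → ℝ} {q : Fin 7 → ℝ}
    (h : Adm Sy η f w q) : 0 ≤ glue Sy f w q := by
  have hl := mb_ll_nonneg h.mb_nonneg_q
  have hc : 0 ≤ col w := fun i => mb_col_nonneg h.nonneg i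
  rw [← mk_eta (glue Sy f w q)]
  refine mb_mk_nonneg (fun j => ?_) ?_
  · have h1 := mb_yy_glue_ge h j
    have h2 := mb_tot_nonneg hl
    have h3 := mb_tot_nonneg hc
    rw [mb_tot_add] at h1
    have h4 := mul_nonneg Sy.κ_pos.le h3
    have h5 := mul_le_mul_of_nonneg_right hη.box.le h2
    show 0 ≤ yy (glue Sy f w q) j
    linarith
  · unfold glue
    rw [ll_mk]
    exact add_nonneg hl hc

/-- (H) the fibre part of `HH` is positive if `w ≠ 0` -/
theorem yy_glue_pos (hη : Small Sy η) {f : Word} {w : CV → ℝ} {q : Fin 7 → ℝ}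
    (h : Adm Sy η f w q) (hw : w ≠ 0) (j : Fin 3) : 0 < yy (glue Sy f w q) j := by
  have hl := mb_ll_nonneg h.mb_nonneg_q
  have h1 := mb_yy_glue_ge h j
  have h2 := mb_tot_nonneg hl
  have h3 := h.mb_tot_pos hw
  rw [mb_tot_add] at h1
  have h4 := mul_pos Sy.κ_pos h3
  have h5 := mul_le_mul_of_nonneg_right hη.box.le h2
  linarith

/-- the fibre part of a nonzero point in the neighbourhood of a sheet is positive -/
theorem yy_pos (hη : Small Sy η) (hS : ∀ f ∈ W, Sy.S f 0 = 0) {f : Word} (hf : f ∈ W)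
    {q : Fin 7 → ℝ} (hq : 0 ≤ q) (h0 : q ≠ 0) (h : 0 ≤ uu Sy η f q) (j : Fin 3) :
    0 < yy q j := by
  have hl := mb_ll_nonneg hq
  unfold uu at h
  have hn : ‖yy q - Sy.S f (ll q)‖ ≤ η * tot (ll q) := by linarith
  have ht : 0 < tot (ll q) := by
    refine lt_of_le_of_ne (mb_tot_nonneg hl) fun h1 => h0 ?_
    have h2 : ll q = 0 := by
      funext i
      exact (Finset.sum_eq_zero_iff_of_nonneg fun i _ => hl i).1 h1.symm i (Finset.mem_univ i)
    have h3 : yy q = 0 := by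
      rw [← h1, mul_zero, h2, hS f hf, sub_zero] at hn
      exact norm_le_zero_iff.1 hn
    rw [← mk_eta q, h2, h3]
    funext k
    simp [mk]
  have h1 := Sy.pos f hf _ hl j
  have h2 : |yy q j - Sy.S f (ll q) j| ≤ η * tot (ll q) :=
    (norm_le_pi_norm (yy q - Sy.S f (ll q)) j).trans hn
  have h3 := (abs_le.1 h2).1
  have h5 := mul_lt_mul_of_pos_right hη.box ht
  linarith

/-- `HH` leaves `CC` if `w ≠ 0` -/
theorem glue_notMem (hη : Small Sy η) {f : Word} {w : CV → ℝ} {q : Fin 7 → ℝ}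
    (h : Adm Sy η f w q) (hw : w ≠ 0) : 0 < uu Sy η f (glue Sy f w q) := by
  have h1 := h.mb_tot_pos hw
  have h2 := mul_pos hη.pos h1
  unfold uu glue
  rw [yy_mk, ll_mk, mb_tot_add]
  have e : yy q + (Sy.S f (ll q + col w) - Sy.S f (ll q)) - Sy.S f (ll q + col w) =
      yy q - Sy.S f (ll q) := by abel
  rw [e, h.mb_norm_eq]
  linarith

end Pool.Agent.Lib.MP_fd6ff4_co.R43
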